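import Pool.Agent.H993.CF.Cnv

/-!
# Project CF: the condensate fraction does not fluctuate
-/

namespace Pool.Agent.H993.CF

open MeasureTheory
open Pool.Agent.N657.QR Pool.Agent.N657.QL
open Pool.Agent.N222.QLUP (integ cMmem)
open Pool.Agent.N402.QL_SUMQ (tpi memD memDm memND plan)

section

variable {d L : ℕ} [NeZero L]

theorem D_bd (θ : (Fin d → ZMod L) → ℝ) : 0 ≤ 1 - r2 θ ∧ 1 - r2 θ ≤ 1 := by
  obtain ⟨h1, h2, -⟩ := tpb.bounds (fun _ : Fin d → ZMod L => (0 : ℝ)) θ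
  constructor <;> linarith

theorem am_int {μ : Measure ((Fin d → ZMod L) → ℝ)} [IsProbabilityMeasure μ] (m : ℕ) :
    Integrable (fun θ => (1 - r2 θ) ^ m) μ := tpi tpb μ _ (memDm tpb m)

theorem am_nonneg {μ : Measure ((Fin d → ZMod L) → ℝ)} (m : ℕ) : 0 ≤ am m μ :=
  integral_nonneg fun θ => pow_nonneg (D_bd θ).1 m

theorem am_anti {μ : Measure ((Fin d → ZMod L) → ℝ)} [IsProbabilityMeasure μ] (m : ℕ) :
    am (m + 1) μ ≤ am m μ := by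
  refine integral_mono (am_int (m + 1)) (am_int m) fun θ => ?_
  obtain ⟨h1, h2⟩ := D_bd θ
  exact pow_le_pow_of_le_one h1 h2 (Nat.le_succ m)

theorem am_cs1 {μ : Measure ((Fin d → ZMod L) → ℝ)} [IsProbabilityMeasure μ] :
    am 1 μ ^ 2 ≤ am 2 μ := by
  have h : 0 ≤ ∫ θ, ((1 - r2 θ) ^ 1 - am 1 μ) ^ 2 ∂μ := integral_nonneg fun θ => sq_nonneg _
  have e : ∫ θ, ((1 - r2 θ) ^ 1 - am 1 μ) ^ 2 ∂μ = am 2 μ - am 1 μ ^ 2 := by
    have e1 : (fun θ : (Fin d → ZMod L) → ℝ => ((1 - r2 θ) ^ 1 - am 1 μ) ^ 2) =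
        fun θ => (1 - r2 θ) ^ 2 - (2 * am 1 μ) * (1 - r2 θ) ^ 1 + am 1 μ ^ 2 := by
      funext θ
      ring
    have j1 : Integrable (fun θ : (Fin d → ZMod L) → ℝ =>
        (1 - r2 θ) ^ 2 - (2 * am 1 μ) * (1 - r2 θ) ^ 1) μ :=
      (am_int 2).sub ((am_int 1).const_mul _)
    rw [e1, integral_add j1 (integrable_const _),
      integral_sub (am_int 2) ((am_int 1).const_mul _), integral_const_mul, integral_const]
    have e2 : ∫ θ, (1 - r2 θ) ^ 1 ∂μ = am 1 μ := rfl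
    have e3 : ∫ θ, (1 - r2 θ) ^ 2 ∂μ = am 2 μ := rfl
    rw [e2, e3]
    simp only [probReal_univ, smul_eq_mul, one_mul]
    ring
  rw [e] at h
  linarith

theorem am_cs2 {μ : Measure ((Fin d → ZMod L) → ℝ)} [IsProbabilityMeasure μ]
    (h1 : 0 < am 1 μ) : am 2 μ ^ 2 ≤ am 1 μ * am 3 μ := by
  have h : ∀ t : ℝ, 0 ≤ am 3 μ - 2 * t * am 2 μ + t ^ 2 * am 1 μ := by
    intro t
    have h0 : 0 ≤ ∫ θ, (1 - r2 θ) * ((1 - r2 θ) - t) ^ 2 ∂μ := integral_nonneg fun θ =>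
      mul_nonneg (D_bd θ).1 (sq_nonneg _)
    have e : ∫ θ, (1 - r2 θ) * ((1 - r2 θ) - t) ^ 2 ∂μ =
        am 3 μ - 2 * t * am 2 μ + t ^ 2 * am 1 μ := by
      have e1 : (fun θ : (Fin d → ZMod L) → ℝ => (1 - r2 θ) * ((1 - r2 θ) - t) ^ 2) =
          fun θ => (1 - r2 θ) ^ 3 - (2 * t) * (1 - r2 θ) ^ 2 + t ^ 2 * (1 - r2 θ) ^ 1 := by
        funext θ
        ring
      have j1 : Integrable (fun θ : (Fin d → ZMod L) → ℝ =>
          (1 - r2 θ) ^ 3 - (2 * t) * (1 - r2 θ) ^ 2) μ :=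
        (am_int 3).sub ((am_int 2).const_mul _)
      rw [e1, integral_add j1 ((am_int 1).const_mul _),
        integral_sub (am_int 3) ((am_int 2).const_mul _), integral_const_mul, integral_const_mul]
      rfl
    rwa [e] at h0
  have h2 := h (am 2 μ / am 1 μ)
  have h3 : am 3 μ - 2 * (am 2 μ / am 1 μ) * am 2 μ + (am 2 μ / am 1 μ) ^ 2 * am 1 μ =
      am 3 μ - am 2 μ ^ 2 / am 1 μ := by
    field_simp
    ring
  rw [h3] at h2
  have h4 : am 2 μ ^ 2 / am 1 μ ≤ am 3 μ := by linarith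
  rwa [div_le_iff₀ h1, mul_comm] at h4

/-- The sum over the modes. -/
theorem sum_lem (hd : 2 ≤ d) {μ : Measure ((Fin d → ZMod L) → ℝ)} [IsProbabilityMeasure μ]
    {a b : ℝ} (hb : 0 ≤ b)
    (h : ∀ k : Fin d → ZMod L, k ≠ 0 →
      (∫ θ, Nf (ck k) θ * (1 - r2 θ) ^ 2 ∂μ) + ∫ θ, Nf (sk k) θ * (1 - r2 θ) ^ 2 ∂μ ≤
        a * ((Fintype.card (Fin d → ZMod L) : ℝ) * (1 / Real.sqrt (lam k))) + b * (1 / lam k)) :
    am 3 μ ≤ a * IL d L + b * IL d L / (4 * L) := by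
  have hp := plan tpb pla μ 2
  have hsum := Finset.sum_le_sum fun k (hk : k ∈ (Finset.univ : Finset (Fin d → ZMod L)).erase 0)
    => h k (Finset.ne_of_mem_erase hk)
  rw [← hp, Finset.sum_add_distrib, ← Finset.mul_sum, ← Finset.mul_sum, ← Finset.mul_sum] at hsum
  obtain ⟨S, hS⟩ : ∃ S, S = ∑ k ∈ (Finset.univ : Finset (Fin d → ZMod L)).erase 0,
    1 / Real.sqrt (lam k) := ⟨_, rfl⟩
  have hL0 : 0 < (L : ℝ) := by exact_mod_cast Nat.pos_of_ne_zero (NeZero.ne L)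
  have hlam : ∑ k ∈ (Finset.univ : Finset (Fin d → ZMod L)).erase 0, 1 / lam k ≤
      (L : ℝ) / 4 * S := by
    rw [hS, Finset.mul_sum]
    refine Finset.sum_le_sum fun k hk => ?_
    have hk0 : k ≠ 0 := Finset.ne_of_mem_erase hk
    have h16 := pla.low d L k hk0
    have hlk : 0 < lam k := lt_of_lt_of_le (by positivity) h16
    have hsl : 0 < Real.sqrt (lam k) := Real.sqrt_pos.2 hlk
    have h4 : 4 / (L : ℝ) ≤ Real.sqrt (lam k) := by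
      rw [← Real.sqrt_sq (by positivity : (0 : ℝ) ≤ 4 / L)]
      apply Real.sqrt_le_sqrt
      calc (4 / (L : ℝ)) ^ 2 = 16 / (L : ℝ) ^ 2 := by ring
        _ ≤ _ := h16
    rw [div_le_iff₀ hL0] at h4
    have e : (1 : ℝ) / lam k = 1 / Real.sqrt (lam k) * (1 / Real.sqrt (lam k)) := by
      rw [one_div_mul_one_div, Real.mul_self_sqrt hlk.le]
    rw [e]
    apply mul_le_mul_of_nonneg_right _ (by positivity)
    rw [div_le_iff₀ hsl]
    linarith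
  rw [← hS] at hsum
  have hVL : (L : ℝ) ^ 2 ≤ (Fintype.card (Fin d → ZMod L) : ℝ) := Pool.Agent.N987.QLLOWG.card_ge hd
  obtain ⟨V, hV⟩ : ∃ V : ℝ, V = (Fintype.card (Fin d → ZMod L) : ℝ) := ⟨_, rfl⟩
  have hV0 : 0 < V := by rw [hV]; exact Pool.Agent.H993.DM.card_pos'
  have hIL : IL d L = S / V := by rw [hS, hV]; rfl
  rw [← hV] at hsum hVL
  have hS0 : 0 ≤ S := by
    rw [hS]
    exact Finset.sum_nonneg fun k _ => by positivity
  have hSI : S = IL d L * V := by rw [hIL]; field_simp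
  have hIL0 : 0 ≤ IL d L := by rw [hIL]; positivity
  have e0 : ∫ θ, (1 - r2 θ) ^ (2 + 1) ∂μ = am 3 μ := rfl
  rw [e0] at hsum
  have h1 : b * (∑ k ∈ (Finset.univ : Finset (Fin d → ZMod L)).erase 0, 1 / lam k) ≤
      b * ((L : ℝ) / 4 * S) := mul_le_mul_of_nonneg_left hlam hb
  have h2 : V ^ 2 * am 3 μ ≤ V ^ 2 * (a * IL d L + b * IL d L / (4 * L)) := by
    have h3 : b * ((L : ℝ) / 4 * S) ≤ V ^ 2 * (b * IL d L / (4 * L)) := by
      rw [hSI]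
      have h4 : b * ((L : ℝ) / 4 * (IL d L * V)) = b * IL d L * V / (4 * L) * (L : ℝ) ^ 2 := by
        field_simp
      have h5 : V ^ 2 * (b * IL d L / (4 * L)) = b * IL d L * V / (4 * L) * V := by
        field_simp
      rw [h4, h5]
      exact mul_le_mul_of_nonneg_left hVL (by positivity)
    have h6 : a * (V * S) = V ^ 2 * (a * IL d L) := by rw [hSI]; ring
    linarith
  exact le_of_mul_le_mul_left h2 (by positivity)

/-- Removal of the weight in one mode. -/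
theorem core_w {U : ℝ} {M : ℕ} {μ : Measure ((Fin d → ZMod L) → ℝ)}
    (hE : Env U μ) {B D' η : ℝ} (f : (Fin d → ZMod L) → ℝ) (hD : 0 ≤ D') (hη : 0 < η)
    (hDb : ∀ u, 0 ≤ u → u ≤ 1 → B ≤ u * cM M u + D' * (1 - u)) :
    B * (∫ θ, Nf f θ * (1 - r2 θ) ^ 2 ∂μ) ≤
      (∫ θ, cM M (r2 θ) * Lf f θ ^ 2 * (1 - r2 θ) ^ 2 ∂μ) +
      (∫ θ, cM M (r2 θ) * Tf f θ ^ 2 * (1 - r2 θ) ^ 2 ∂μ) +
      D' * (η / 2 * (∫ θ, Nf f θ * (1 - r2 θ) ^ (2 * 1) ∂μ) +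
        1 / (2 * η) * ∫ θ, Nf f θ * (1 - r2 θ) ^ (2 * 2) ∂μ) := by
  have := hE.prob
  obtain ⟨mX, mY, -, -, mr, mN, mL, mT⟩ := tpb.mem f
  have hc := cMmem (V := Fin d → ZMod L) tpb M
  have mD := memDm (V := Fin d → ZMod L) tpb 2
  have i1 : Integrable (fun θ => cM M (r2 θ) * Lf f θ ^ 2 * (1 - r2 θ) ^ 2) μ :=
    integ tpb μ _ (Subalgebra.mul_mem _ (Subalgebra.mul_mem _ hc (Subalgebra.pow_mem _ mL 2)) mD)
  have i2 : Integrable (fun θ => cM M (r2 θ) * Tf f θ ^ 2 * (1 - r2 θ) ^ 2) μ :=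
    integ tpb μ _ (Subalgebra.mul_mem _ (Subalgebra.mul_mem _ hc (Subalgebra.pow_mem _ mT 2)) mD)
  have i3 : Integrable (fun θ => Nf f θ * (1 - r2 θ) ^ (2 * 1)) μ := tpi tpb μ _ (memND tpb f _)
  have i4 : Integrable (fun θ => Nf f θ * (1 - r2 θ) ^ (2 * 2)) μ := tpi tpb μ _ (memND tpb f _)
  have i5 : Integrable (fun θ => Nf f θ * (1 - r2 θ) ^ 2) μ := tpi tpb μ _ (memND tpb f _)
  have hN0 : ∀ θ, 0 ≤ Nf f θ := fun θ => by
    unfold Nf; positivity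
  have i12 : Integrable (fun θ => cM M (r2 θ) * Lf f θ ^ 2 * (1 - r2 θ) ^ 2 +
      cM M (r2 θ) * Tf f θ ^ 2 * (1 - r2 θ) ^ 2) μ := i1.add i2
  have i34 : Integrable (fun θ => D' * (η / 2 * (Nf f θ * (1 - r2 θ) ^ (2 * 1)) +
      1 / (2 * η) * (Nf f θ * (1 - r2 θ) ^ (2 * 2)))) μ :=
    ((i3.const_mul _).add (i4.const_mul _)).const_mul _
  rw [← integral_const_mul, ← integral_const_mul, ← integral_const_mul,
    ← integral_add (i3.const_mul _) (i4.const_mul _), ← integral_const_mul,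
    ← integral_add i1 i2]
  rw [← integral_add i12 i34]
  refine integral_mono (i5.const_mul B) (i12.add i34) fun θ => ?_
  obtain ⟨b1, b2, b3, -⟩ := tpb.bounds f θ
  obtain ⟨c1, c2⟩ := D_bd θ
  show B * (Nf f θ * (1 - r2 θ) ^ 2) ≤ cM M (r2 θ) * Lf f θ ^ 2 * (1 - r2 θ) ^ 2 +
    cM M (r2 θ) * Tf f θ ^ 2 * (1 - r2 θ) ^ 2 +
    D' * (η / 2 * (Nf f θ * (1 - r2 θ) ^ (2 * 1)) +
      1 / (2 * η) * (Nf f θ * (1 - r2 θ) ^ (2 * 2)))
  have h1 : cM M (r2 θ) * Lf f θ ^ 2 * (1 - r2 θ) ^ 2 +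
      cM M (r2 θ) * Tf f θ ^ 2 * (1 - r2 θ) ^ 2 =
      (r2 θ * cM M (r2 θ)) * (Nf f θ * (1 - r2 θ) ^ 2) := by
    rw [← add_mul, ← mul_add, b3]
    ring
  rw [h1]
  have h2 : 0 ≤ Nf f θ * (1 - r2 θ) ^ 2 := mul_nonneg (hN0 θ) (sq_nonneg _)
  have h3 := mul_le_mul_of_nonneg_right (hDb _ b1 b2) h2
  have h4 : (1 - r2 θ) ≤ η / 2 + 1 / (2 * η) * (1 - r2 θ) ^ 2 := by
    have e : η / 2 + 1 / (2 * η) * (1 - r2 θ) ^ 2 - (1 - r2 θ) =
        1 / (2 * η) * (η - (1 - r2 θ)) ^ 2 := by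
      field_simp
      ring
    have : 0 ≤ 1 / (2 * η) * (η - (1 - r2 θ)) ^ 2 := by positivity
    linarith
  have h5 := mul_le_mul_of_nonneg_right h4 h2
  have h6 := mul_le_mul_of_nonneg_left h5 hD
  have e1 : (η / 2 + 1 / (2 * η) * (1 - r2 θ) ^ 2) * (Nf f θ * (1 - r2 θ) ^ 2) =
      η / 2 * (Nf f θ * (1 - r2 θ) ^ (2 * 1)) + 1 / (2 * η) * (Nf f θ * (1 - r2 θ) ^ (2 * 2)) := by
    ring
  rw [e1] at h6
  have e2 : (r2 θ * cM M (r2 θ) + D' * (1 - r2 θ)) * (Nf f θ * (1 - r2 θ) ^ 2) =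
      (r2 θ * cM M (r2 θ)) * (Nf f θ * (1 - r2 θ) ^ 2) +
        D' * ((1 - r2 θ) * (Nf f θ * (1 - r2 θ) ^ 2)) := by ring
  rw [e2] at h3
  linarith

/-- The lattice sum is bounded from below. -/
theorem IL_low (hd : 2 ≤ d) (hL : 2 ≤ L) : 1 / (2 * Real.sqrt (8 * d)) ≤ IL d L := by
  have hne : ∃ z : Fin d → ZMod L, z ≠ 0 := by
    refine ⟨fun _ => 1, fun h => ?_⟩
    have : Fact (1 < L) := ⟨by omega⟩
    exact one_ne_zero (congrFun h ⟨0, by omega⟩)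
  obtain ⟨z, hz⟩ := hne
  have h1 := Pool.Agent.H993.DM.pr_low hd hz
  have h2 := Pool.Agent.H993.DM.pr_le (d := d) (L := L) (s := 0) le_rfl z
  have h3 : 1 / (2 * Real.sqrt (8 * d)) = 1 / Real.sqrt (8 * d) / 2 := by
    rw [div_div, mul_comm]
  rw [h3]
  linarith

end

end Pool.Agent.H993.CF
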