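import Pool.Agent.H993.CF.Env
import Pool.Agent.H993.DM.E

/-!
# Project CF: the condensate operator and the distribution of the angles
-/

namespace Pool.Agent.H993.CF

open MeasureTheory
open Pool.Agent.N657.QR Pool.Agent.N657.QL

section

variable {V : Type} [Fintype V] [DecidableEq V]

/-- The condensate operator: `|V|⁻² ∑_{x,y} a_x^* a_y`. -/
noncomputable def N0 (Φ : (V → ℤ) → ℝ) (n : V → ℤ) : ℝ :=
  (∑ x, ∑ y, Φ (hp x y n)) / (Fintype.card V : ℝ) ^ 2

theorem shift_summable {Φ : (V → ℤ) → ℝ} (h : Summable fun n => Φ n ^ 2) (v : V → ℤ) :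
    Summable fun n => Φ (n + v) ^ 2 :=
  (Equiv.addRight v).summable_iff.2 h

theorem prod_summable {Φ : (V → ℤ) → ℝ} (h : Summable fun n => Φ n ^ 2) (v w : V → ℤ) :
    Summable fun n => Φ (n + v) * Φ (n + w) := by
  refine Summable.of_norm_bounded (g := fun n => (Φ (n + v) ^ 2 + Φ (n + w) ^ 2) / 2)
    (((shift_summable h v).add (shift_summable h w)).div_const 2) fun n => ?_
  rw [Real.norm_eq_abs, abs_mul]
  nlinarith [sq_nonneg (|Φ (n + v)| - |Φ (n + w)|), sq_abs (Φ (n + v)), sq_abs (Φ (n + w))]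

theorem hp_eq (x y : V) (n : V → ℤ) : hp x y n = n + (Pi.single x 1 - Pi.single y 1) := by
  unfold hp dl
  abel

theorem two_pt {Φ : (V → ℤ) → ℝ} {μ : Measure (V → ℝ)} (hμ : IsMeas Φ μ) (v w : V → ℤ) :
    ∑' n, Φ (n + v) * Φ (n + w) = ∫ θ, Real.cos (∑ x, ((v - w) x : ℝ) * θ x) ∂μ := by
  rw [(hμ.2 (v - w)).1, ← (Equiv.addRight w).tsum_eq (fun n => Φ (n + (v - w)) * Φ n)]
  refine tsum_congr fun n => ?_
  simp only [Equiv.coe_addRight]
  congr 2
  abel

theorem int_cos {μ : Measure (V → ℝ)} [IsProbabilityMeasure μ] (η : V → ℝ) :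
    Integrable (fun θ : V → ℝ => Real.cos (∑ x, η x * θ x)) μ :=
  Integrable.of_bound (by fun_prop : Continuous fun θ : V → ℝ =>
    Real.cos (∑ x, η x * θ x)).aestronglyMeasurable 1
    (ae_of_all _ fun θ => by rw [Real.norm_eq_abs]; exact Real.abs_cos_le_one _)

theorem phase (x y u v : V) (θ : V → ℝ) :
    ∑ z, ((((Pi.single x 1 - Pi.single y 1) - (Pi.single u 1 - Pi.single v 1) : V → ℤ) z : ℤ) : ℝ) *
      θ z = (θ x - θ y) - (θ u - θ v) := by
  have h : ∀ a : V, ∑ z, (((Pi.single a 1 : V → ℤ) z : ℤ) : ℝ) * θ z = θ a := by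
    intro a
    rw [Finset.sum_eq_single a]
    · simp
    · intro b _ hb
      rw [Pi.single_eq_of_ne hb]
      simp
    · simp
  simp only [Pi.sub_apply, Int.cast_sub, sub_mul, Finset.sum_sub_distrib, h]

theorem r2_sum [Nonempty V] (θ : V → ℝ) :
    (Fintype.card V : ℝ) ^ 2 * r2 θ = ∑ x, ∑ y, Real.cos (θ x - θ y) := by
  have hV : (Fintype.card V : ℝ) ≠ 0 := by exact_mod_cast Fintype.card_ne_zero
  unfold r2 mx my Xf Yf
  simp only [one_mul]
  have e : (Fintype.card V : ℝ) ^ 2 * (((∑ x, Real.cos (θ x)) / (Fintype.card V : ℝ)) ^ 2 +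
      ((∑ x, Real.sin (θ x)) / (Fintype.card V : ℝ)) ^ 2) =
      (∑ x, Real.cos (θ x)) * (∑ x, Real.cos (θ x)) +
      (∑ x, Real.sin (θ x)) * (∑ x, Real.sin (θ x)) := by
    field_simp
  rw [e, Finset.sum_mul_sum, Finset.sum_mul_sum, ← Finset.sum_add_distrib]
  refine Finset.sum_congr rfl fun x _ => ?_
  rw [← Finset.sum_add_distrib]
  exact Finset.sum_congr rfl fun y _ => by rw [Real.cos_sub]

theorem sin_sum (θ : V → ℝ) : ∑ x, ∑ y, Real.sin (θ x - θ y) = 0 := by
  have h : ∑ x, ∑ y, Real.sin (θ x - θ y) = -∑ x, ∑ y, Real.sin (θ x - θ y) := by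
    conv_lhs => rw [Finset.sum_comm]
    rw [← Finset.sum_neg_distrib]
    refine Finset.sum_congr rfl fun x _ => ?_
    rw [← Finset.sum_neg_distrib]
    refine Finset.sum_congr rfl fun y _ => ?_
    rw [← Real.sin_neg, neg_sub]
  linarith

theorem four_sum [Nonempty V] (θ : V → ℝ) :
    ∑ x, ∑ y, ∑ u, ∑ v, Real.cos ((θ x - θ y) - (θ u - θ v)) =
      (Fintype.card V : ℝ) ^ 4 * r2 θ ^ 2 := by
  have h1 : (Fintype.card V : ℝ) ^ 4 * r2 θ ^ 2 =
      ((Fintype.card V : ℝ) ^ 2 * r2 θ) * ((Fintype.card V : ℝ) ^ 2 * r2 θ) := by ring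
  rw [h1, r2_sum]
  have h2 : ∀ x y : V, ∑ u, ∑ v, Real.cos ((θ x - θ y) - (θ u - θ v)) =
      Real.cos (θ x - θ y) * (∑ u, ∑ v, Real.cos (θ u - θ v)) := by
    intro x y
    have h3 : Real.cos (θ x - θ y) * (∑ u, ∑ v, Real.cos (θ u - θ v)) =
        Real.cos (θ x - θ y) * (∑ u, ∑ v, Real.cos (θ u - θ v)) +
        Real.sin (θ x - θ y) * (∑ u, ∑ v, Real.sin (θ u - θ v)) := by
      rw [sin_sum, mul_zero, add_zero]
    rw [h3]
    simp only [Finset.mul_sum]
    rw [← Finset.sum_add_distrib]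
    refine Finset.sum_congr rfl fun u _ => ?_
    rw [← Finset.sum_add_distrib]
    exact Finset.sum_congr rfl fun v _ => by rw [Real.cos_sub]
  simp only [h2, ← Finset.sum_mul]

/-- The second moment of the condensate operator. -/
theorem N0_sq [Nonempty V] {Φ : (V → ℤ) → ℝ} {μ : Measure (V → ℝ)}
    (hs : Summable fun n => Φ n ^ 2) (hμ : IsMeas Φ μ) :
    Summable (fun n => N0 Φ n ^ 2) ∧ ∑' n, N0 Φ n ^ 2 = ∫ θ, r2 θ ^ 2 ∂μ := by
  have := hμ.1
  have hV : (Fintype.card V : ℝ) ≠ 0 := by exact_mod_cast Fintype.card_ne_zero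
  have e1 : ∀ n, N0 Φ n ^ 2 = (∑ x, ∑ y, ∑ u, ∑ v,
      Φ (n + (Pi.single x 1 - Pi.single y 1)) * Φ (n + (Pi.single u 1 - Pi.single v 1))) /
        (Fintype.card V : ℝ) ^ 4 := by
    intro n
    unfold N0
    rw [div_pow, ← pow_mul]
    congr 1
    rw [pow_two]
    simp only [hp_eq]
    rw [Finset.sum_mul]
    refine Finset.sum_congr rfl fun x _ => ?_
    rw [Finset.sum_mul]
    refine Finset.sum_congr rfl fun y _ => ?_
    rw [Finset.mul_sum]
    refine Finset.sum_congr rfl fun u _ => ?_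
    rw [Finset.mul_sum]
  have hsum : ∀ x y u v : V, Summable fun n : V → ℤ =>
      Φ (n + (Pi.single x 1 - Pi.single y 1)) * Φ (n + (Pi.single u 1 - Pi.single v 1)) :=
    fun x y u v => prod_summable hs _ _
  have hS : Summable fun n : V → ℤ => ∑ x, ∑ y, ∑ u, ∑ v,
      Φ (n + (Pi.single x 1 - Pi.single y 1)) * Φ (n + (Pi.single u 1 - Pi.single v 1)) :=
    summable_sum fun x _ => summable_sum fun y _ => summable_sum fun u _ => summable_sum fun v _ =>
      hsum x y u v
  refine ⟨(hS.div_const _).congr fun n => (e1 n).symm, ?_⟩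
  simp only [e1]
  rw [tsum_div_const]
  rw [Summable.tsum_finsetSum fun x _ => summable_sum fun y _ => summable_sum fun u _ =>
    summable_sum fun v _ => hsum x y u v]
  have e2 : ∀ x : V, ∑' n : V → ℤ, ∑ y, ∑ u, ∑ v,
      Φ (n + (Pi.single x 1 - Pi.single y 1)) * Φ (n + (Pi.single u 1 - Pi.single v 1)) =
      ∑ y, ∑ u, ∑ v, ∫ θ, Real.cos ((θ x - θ y) - (θ u - θ v)) ∂μ := by
    intro x
    rw [Summable.tsum_finsetSum fun y _ => summable_sum fun u _ =>
      summable_sum fun v _ => hsum x y u v]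
    refine Finset.sum_congr rfl fun y _ => ?_
    rw [Summable.tsum_finsetSum fun u _ => summable_sum fun v _ => hsum x y u v]
    refine Finset.sum_congr rfl fun u _ => ?_
    rw [Summable.tsum_finsetSum fun v _ => hsum x y u v]
    refine Finset.sum_congr rfl fun v _ => ?_
    rw [two_pt hμ]
    simp only [phase]
  simp only [e2]
  have hi : ∀ x y u v : V, Integrable (fun θ : V → ℝ =>
      Real.cos ((θ x - θ y) - (θ u - θ v))) μ := fun x y u v =>
    Integrable.of_bound (by fun_prop : Continuous fun θ : V → ℝ =>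
      Real.cos ((θ x - θ y) - (θ u - θ v))).aestronglyMeasurable 1
      (ae_of_all _ fun θ => by rw [Real.norm_eq_abs]; exact Real.abs_cos_le_one _)
  have e3 : ∑ x, ∑ y, ∑ u, ∑ v, ∫ θ, Real.cos ((θ x - θ y) - (θ u - θ v)) ∂μ =
      ∫ θ, (Fintype.card V : ℝ) ^ 4 * r2 θ ^ 2 ∂μ := by
    simp only [← four_sum]
    rw [integral_finsetSum _ fun x _ => integrable_finsetSum _ fun y _ =>
      integrable_finsetSum _ fun u _ => integrable_finsetSum _ fun v _ => hi x y u v]
    refine Finset.sum_congr rfl fun x _ => ?_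
    rw [integral_finsetSum _ fun y _ =>
      integrable_finsetSum _ fun u _ => integrable_finsetSum _ fun v _ => hi x y u v]
    refine Finset.sum_congr rfl fun y _ => ?_
    rw [integral_finsetSum _ fun u _ => integrable_finsetSum _ fun v _ => hi x y u v]
    refine Finset.sum_congr rfl fun u _ => ?_
    rw [integral_finsetSum _ fun v _ => hi x y u v]
  rw [e3, integral_const_mul]
  field_simp

/-- The mean of the condensate operator. -/
theorem N0_mean [Nonempty V] {Φ : (V → ℤ) → ℝ} {μ : Measure (V → ℝ)}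
    (hs : Summable fun n => Φ n ^ 2) (hμ : IsMeas Φ μ) :
    Summable (fun n => N0 Φ n * Φ n) ∧ ∑' n, N0 Φ n * Φ n = ∫ θ, r2 θ ∂μ ∧
      ∑' n, N0 Φ n * Φ n = (∑ x, ∑ y, cr x y Φ) / (Fintype.card V : ℝ) ^ 2 := by
  have := hμ.1
  have hV : (Fintype.card V : ℝ) ≠ 0 := by exact_mod_cast Fintype.card_ne_zero
  have e1 : ∀ n, N0 Φ n * Φ n = (∑ x, ∑ y, Φ (hp x y n) * Φ n) / (Fintype.card V : ℝ) ^ 2 := by
    intro n
    unfold N0
    rw [div_mul_eq_mul_div]
    simp only [Finset.sum_mul]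
  have hsum : ∀ x y : V, Summable fun n : V → ℤ => Φ (hp x y n) * Φ n := by
    intro x y
    have h := prod_summable hs (Pi.single x 1 - Pi.single y 1) 0
    refine h.congr fun n => ?_
    rw [hp_eq, add_zero]
  have hS : Summable fun n : V → ℤ => ∑ x, ∑ y, Φ (hp x y n) * Φ n :=
    summable_sum fun x _ => summable_sum fun y _ => hsum x y
  have e2 : ∑' n, N0 Φ n * Φ n = (∑ x, ∑ y, cr x y Φ) / (Fintype.card V : ℝ) ^ 2 := by
    simp only [e1]
    rw [tsum_div_const, Summable.tsum_finsetSum fun x _ => summable_sum fun y _ => hsum x y]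
    congr 1
    refine Finset.sum_congr rfl fun x _ => ?_
    rw [Summable.tsum_finsetSum fun y _ => hsum x y]
    rfl
  refine ⟨(hS.div_const _).congr fun n => (e1 n).symm, ?_, e2⟩
  rw [e2]
  have e3 : ∀ x y : V, cr x y Φ = ∫ θ, Real.cos (θ x - θ y) ∂μ := by
    intro x y
    have h := two_pt hμ (Pi.single x 1 - Pi.single y 1) 0
    have h2 : cr x y Φ = ∑' n, Φ (n + (Pi.single x 1 - Pi.single y 1)) * Φ (n + 0) := by
      unfold cr
      refine tsum_congr fun n => ?_
      rw [hp_eq, add_zero]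
    rw [h2, h]
    refine integral_congr_ae (ae_of_all _ fun θ => ?_)
    show Real.cos _ = Real.cos _
    congr 1
    have h3 := phase x y x x θ
    simp only [sub_self, sub_zero] at h3
    simpa using h3
  have hi : ∀ x y : V, Integrable (fun θ : V → ℝ => Real.cos (θ x - θ y)) μ := fun x y =>
    Integrable.of_bound (by fun_prop : Continuous fun θ : V → ℝ =>
      Real.cos (θ x - θ y)).aestronglyMeasurable 1
      (ae_of_all _ fun θ => by rw [Real.norm_eq_abs]; exact Real.abs_cos_le_one _)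
  have e4 : ∑ x, ∑ y, cr x y Φ = ∫ θ, (Fintype.card V : ℝ) ^ 2 * r2 θ ∂μ := by
    simp only [e3, r2_sum]
    rw [integral_finsetSum _ fun x _ => integrable_finsetSum _ fun y _ => hi x y]
    refine Finset.sum_congr rfl fun x _ => ?_
    rw [integral_finsetSum _ fun y _ => hi x y]
  rw [e4, integral_const_mul]
  field_simp

end

end Pool.Agent.H993.CF
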