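import Pool.Agent.H993.CF.Stm
import Pool.Graph.R_pool_sql_team_seeded_63374d34.N657.QL.All

/-!
# Project CF: the distribution of the angles (task 1)
-/

namespace Pool.Agent.H993.CF

open MeasureTheory Filter Topology
open Pool.Agent.N657.QR Pool.Agent.N657.QL

theorem env_main (hB : S_BAS) (hM : S_MEAS) (hO : S_OPR) (hY : S_SYM) (hG : S_GD) (hI : S_IRB)
    (hS : S_TPS) (hT : S_TPB) : T_ENV := by
  intro d L _ U Ψ hL hU hΨ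
  obtain ⟨hFE, hSec, hnr, hFF⟩ := hΨ
  obtain ⟨μ, hμ⟩ := hM Ψ hFE.1 hnr
  have := hμ.1
  refine ⟨μ, ?_, hμ⟩
  have hsym := hY d L U Ψ hU ⟨hFE, hSec, hnr, hFF⟩
  refine ⟨hμ.1, fun R hR φ => Pool.Agent.N402.QL_ENV.rot hS Ψ hSec μ hμ R hR φ, fun R hR => Pool.Agent.N402.QL_ENV.refl hS Ψ μ hμ R hR,
    fun R hR a => Pool.Agent.N402.QL_ENV.trans hS Ψ a (hsym.2 a) μ hμ R hR, ?_, ?_⟩
  · intro l f hl hf
    rw [Pool.Agent.N402.QL_ENV.Nf_int Ψ μ hμ f]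
    have h := hI d L U 1 l Ψ f hL hU one_pos hl ⟨hFE, hSec, hnr, hFF⟩ hf
    rwa [div_one] at h
  · intro R hR t l f hf
    obtain ⟨ψ₁, ψ₂, hF1, hF2, hn, -, hx, hFF2⟩ := hO U (nnw 1) Ψ μ hU Pool.Agent.N402.QL_ENV.nnw_nonneg
      ⟨hFE, hSec, hnr, hFF⟩ hμ R hR
    have g1 := hG d L U 1 l (fun y => t * f y) hL hU.le zero_le_one (Pool.Agent.N402.QL_ENV.lap_smul t l f hf) ψ₁ hF1
    have g2 := hG d L U 1 l (fun y => t * f y) hL hU.le zero_le_one (Pool.Agent.N402.QL_ENV.lap_smul t l f hf) ψ₂ hF2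
    rw [Pool.Agent.N402.QL_ENV.Xf_int hT μ f R hR]
    have s1 : ∑ x, t * f x * xx x ψ₁ + ∑ x, t * f x * xx x ψ₂ =
        t * ∑ x, f x * ∫ θ, Real.cos (θ x) * R θ ^ 2 ∂μ := by
      rw [← Finset.sum_add_distrib, Finset.mul_sum]
      refine Finset.sum_congr rfl fun x _ => ?_
      rw [← hx x]
      ring
    have s2 : ∑ x, (t * f x) ^ 2 = t ^ 2 * ∑ x, f x ^ 2 := by
      rw [Finset.mul_sum]
      exact Finset.sum_congr rfl fun x _ => by ring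
    simp only [s2] at g1 g2
    obtain ⟨A1, hA1⟩ : ∃ A, A = ∑ x, t * f x * xx x ψ₁ := ⟨_, rfl⟩
    obtain ⟨A2, hA2⟩ : ∃ A, A = ∑ x, t * f x * xx x ψ₂ := ⟨_, rfl⟩
    obtain ⟨A3, hA3⟩ : ∃ A, A = ∑ x, f x * ∫ θ, Real.cos (θ x) * R θ ^ 2 ∂μ := ⟨_, rfl⟩
    obtain ⟨F2, hf2⟩ : ∃ A, A = ∑ x, f x ^ 2 := ⟨_, rfl⟩
    rw [← hA1, ← hf2] at g1
    rw [← hA2, ← hf2] at g2
    rw [← hA1, ← hA2, ← hA3] at s1
    rw [← hA3, ← hf2, ← hn]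
    rw [← hn] at hFF2
    have s3 : l * (A1 + A2) = l * (t * A3) := by rw [s1]
    linarith [g1, g2, hFF2, s3]


theorem t_env : T_ENV := env_main bas meas opr sym gd irb tps tpb

end Pool.Agent.H993.CF
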