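import Pool.Agent.H993.CF.Stm
import Pool.Graph.R_pool_sql_team_seeded_63374d34.N402.QL_ROTA

/-!
# Project CF, task 2: rotation averages with the weight `(1 - r2)^2`

Adaptation of the library module `N402/QL_ROTA` (helper402).
-/

set_option autoImplicit false
set_option linter.all false
set_option maxHeartbeats 4000000

namespace Pool.Agent.H993.CF.T2

open MeasureTheory Filter Topology
open Pool.Agent.N657.QR Pool.Agent.N657.QL Pool.Agent.N402.QL_ROTA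

section General

variable {V : Type} [Fintype V] [DecidableEq V]

/-- the weight is a trigonometric polynomial -/
lemma memW (hT : S_TPB) : (fun θ : V → ℝ => (1 - r2 θ) ^ 2) ∈ TP V :=
  (TP V).pow_mem ((TP V).sub_mem (TP V).one_mem (hT.mem (fun _ => 0)).2.2.2.2.1) _

/-- the weight is invariant under rotations -/
lemma rotW (hT : S_TPB) (θ : V → ℝ) (φ : ℝ) : r2 (fun x => θ x + φ) = r2 θ := by
  obtain ⟨-, -, -, -, h5, -⟩ := hT.rot (fun _ => 0) θ φ
  exact h5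

/-- averages over rotations with the weight `(1 - r2)^2` -/
lemma avgW (hT : S_TPB) (μ : Measure (V → ℝ)) [IsProbabilityMeasure μ]
    (hrot : ∀ R ∈ TP V, ∀ φ : ℝ, ∫ θ, R (fun x => θ x + φ) ∂μ = ∫ θ, R θ ∂μ)
    (R G : (V → ℝ) → ℝ) (hR : R ∈ TP V) (n : ℕ) (hn : 0 < n)
    (h : ∀ θ, ∑ j ∈ Finset.range n, R (fun x => θ x + ag n j) = n * G θ) :
    ∫ θ, R θ * (1 - r2 θ) ^ 2 ∂μ = ∫ θ, G θ * (1 - r2 θ) ^ 2 ∂μ := by
  refine avg hT μ hrot (fun θ => R θ * (1 - r2 θ) ^ 2) (fun θ => G θ * (1 - r2 θ) ^ 2)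
    ((TP V).mul_mem hR (memW hT)) n hn fun θ => ?_
  have e : ∀ j, (fun θ => R θ * (1 - r2 θ) ^ 2) (fun x => θ x + ag n j) =
      R (fun x => θ x + ag n j) * (1 - r2 θ) ^ 2 := fun j => by
    show R (fun x => θ x + ag n j) * (1 - r2 (fun x => θ x + ag n j)) ^ 2 = _
    rw [rotW hT]
  rw [Finset.sum_congr rfl fun j _ => e j, ← Finset.sum_mul, h]
  ring

end General

theorem task2 (hT : S_TPB) : Pool.Agent.H993.CF.T_ROTA := by
  intro d L _ U μ hμ M f
  have := hμ.prob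
  have hn : 0 < 2 * M + 3 := by omega
  have hmxj : ∀ (θ : (Fin d → ZMod L) → ℝ) (j : ℕ), mx (fun x => θ x + ag (2 * M + 3) j) =
      xj (2 * M + 3) j (mx θ) (my θ) := fun θ j => by
    obtain ⟨-, -, h3, -⟩ := hT.rot f θ (ag (2 * M + 3) j)
    rw [h3]
    unfold xj
    ring
  have hmyj : ∀ (θ : (Fin d → ZMod L) → ℝ) (j : ℕ), my (fun x => θ x + ag (2 * M + 3) j) =
      xj (2 * M + 3) j (my θ) (-mx θ) := fun θ j => by
    obtain ⟨-, -, -, h4, -⟩ := hT.rot f θ (ag (2 * M + 3) j)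
    rw [h4]
    unfold xj
    ring
  have hXj : ∀ (θ : (Fin d → ZMod L) → ℝ) (j : ℕ), Xf f (fun x => θ x + ag (2 * M + 3) j) =
      xj (2 * M + 3) j (Xf f θ) (Yf f θ) := fun θ j => by
    obtain ⟨h1, -⟩ := hT.rot f θ (ag (2 * M + 3) j)
    rw [h1]
    rfl
  have hLj : ∀ (θ : (Fin d → ZMod L) → ℝ) (j : ℕ), Lf f (fun x => θ x + ag (2 * M + 3) j) =
      Lf f θ := fun θ j => by
    obtain ⟨-, -, -, -, -, -, h7, -⟩ := hT.rot f θ (ag (2 * M + 3) j)
    exact h7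
  have hTj : ∀ (θ : (Fin d → ZMod L) → ℝ) (j : ℕ), Tf f (fun x => θ x + ag (2 * M + 3) j) =
      Tf f θ := fun θ j => by
    obtain ⟨-, -, -, -, -, -, -, h8⟩ := hT.rot f θ (ag (2 * M + 3) j)
    exact h8
  have hmem := hT.mem f
  refine ⟨?_, ?_, ?_, ?_⟩
  · refine avgW hT μ hμ.rot (fun θ => (1 + mx θ) ^ (2 * M)) (fun θ => AM M (r2 θ)) (mem1 hT M)
      (2 * M + 3) hn fun θ => ?_
    simp only [hmxj]
    rw [totA (by omega)]
    rfl
  · refine avgW hT μ hμ.rot (fun θ => (1 + my θ) ^ (2 * M)) (fun θ => AM M (r2 θ)) (mem2 hT M)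
      (2 * M + 3) hn fun θ => ?_
    simp only [hmyj]
    rw [totA (by omega)]
    unfold r2
    rw [show my θ ^ 2 + (-mx θ) ^ 2 = mx θ ^ 2 + my θ ^ 2 by ring]
  · refine avgW hT μ hμ.rot (fun θ => Xf f θ * Lf f θ * (1 + mx θ) ^ (2 * M))
      (fun θ => cM M (r2 θ) * Lf f θ ^ 2)
      ((TP _).mul_mem ((TP _).mul_mem hmem.1 hmem.2.2.2.2.2.2.1) (mem1 hT M))
      (2 * M + 3) hn fun θ => ?_
    simp only [hmxj, hXj, hLj]
    have e : ∀ j, xj (2 * M + 3) j (Xf f θ) (Yf f θ) * Lf f θ *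
        (1 + xj (2 * M + 3) j (mx θ) (my θ)) ^ (2 * M) = Lf f θ *
          (xj (2 * M + 3) j (Xf f θ) (Yf f θ) *
            (1 + xj (2 * M + 3) j (mx θ) (my θ)) ^ (2 * M)) := fun j => by ring
    rw [Finset.sum_congr rfl fun j _ => e j, ← Finset.mul_sum, totB (by omega)]
    unfold r2 Lf
    ring
  · rw [← integral_neg]
    have key := avgW hT μ hμ.rot (fun θ => Xf f θ * Tf f θ * (1 + my θ) ^ (2 * M))
      (fun θ => -(cM M (r2 θ) * Tf f θ ^ 2))
      ((TP _).mul_mem ((TP _).mul_mem hmem.1 hmem.2.2.2.2.2.2.2) (mem2 hT M))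
      (2 * M + 3) hn fun θ => by
        simp only [hmyj, hXj, hTj]
        have e : ∀ j, xj (2 * M + 3) j (Xf f θ) (Yf f θ) * Tf f θ *
            (1 + xj (2 * M + 3) j (my θ) (-mx θ)) ^ (2 * M) = Tf f θ *
              (xj (2 * M + 3) j (Xf f θ) (Yf f θ) *
                (1 + xj (2 * M + 3) j (my θ) (-mx θ)) ^ (2 * M)) := fun j => by ring
        rw [Finset.sum_congr rfl fun j _ => e j, ← Finset.mul_sum, totB (by omega)]
        unfold r2 Tf
        rw [show my θ ^ 2 + (-mx θ) ^ 2 = mx θ ^ 2 + my θ ^ 2 by ring]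
        ring
    rw [key]
    congr 1
    funext θ
    ring

end Pool.Agent.H993.CF.T2
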