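import Pool.Agent.H993.CF.Stm
import Pool.Graph.R_pool_sql_team_seeded_63374d34.N8.QL_SQ

/-!
# Project CF, task 3: the weighted infrared bound for `Nf (1 - r2) ^ (2 m)`
-/

set_option autoImplicit false
set_option maxHeartbeats 4000000

namespace Pool.Agent.H993.CF.T3

open MeasureTheory Filter Topology
open Pool.Agent.N657.QR Pool.Agent.N657.QL
open Pool.Agent.N8.QLSQ (integ int3 pd_smul P_mem pd_P P_bd grP_bd)
open Pool.Agent.H993.CF (am T_SQ)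

section gen

variable {V : Type} [Fintype V] [DecidableEq V]

theorem Pm_mem (hT : S_TPB) (m : ℕ) : ((1 - r2 : (V → ℝ) → ℝ) ^ m) ∈ TP V :=
  pow_mem (P_mem hT) m

omit [Fintype V] in
theorem pd_one (x : V) (θ : V → ℝ) : pd x (1 : (V → ℝ) → ℝ) θ = 0 := by
  unfold pd
  simp

theorem pd_Pm (hT : S_TPB) (m : ℕ) (x : V) (θ : V → ℝ) :
    pd x ((1 - r2 : (V → ℝ) → ℝ) ^ m) θ = m * (1 - r2 θ) ^ (m - 1) * pd x (1 - r2) θ := by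
  induction m with
  | zero =>
    rw [pow_zero, pd_one]
    simp
  | succ m ih =>
    rw [pow_succ, hT.pdmul _ _ (Pm_mem hT m) (P_mem hT), ih]
    have e1 : ((1 - r2 : (V → ℝ) → ℝ) ^ m) θ = (1 - r2 θ) ^ m := rfl
    have e2 : (1 - r2 : (V → ℝ) → ℝ) θ = 1 - r2 θ := rfl
    rw [e1, e2]
    rcases Nat.eq_zero_or_pos m with h | h
    · subst h
      simp
    · obtain ⟨k, rfl⟩ : ∃ k, m = k + 1 := ⟨m - 1, by omega⟩
      simp only [Nat.add_sub_cancel]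
      push_cast
      ring

variable [Nonempty V]

theorem grPm_bd (hT : S_TPB) (m : ℕ) (θ : V → ℝ) :
    gr ((1 - r2 : (V → ℝ) → ℝ) ^ m) θ ≤ 4 * (m : ℝ) ^ 2 / (Fintype.card V : ℝ) := by
  have hv : (0 : ℝ) < Fintype.card V := by exact_mod_cast Fintype.card_pos
  obtain ⟨h0, h1⟩ := P_bd hT θ
  have e : gr ((1 - r2 : (V → ℝ) → ℝ) ^ m) θ =
      (m : ℝ) ^ 2 * ((1 - r2 θ) ^ (m - 1)) ^ 2 * gr (1 - r2) θ := by
    unfold gr
    rw [Finset.mul_sum]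
    refine Finset.sum_congr rfl fun x _ => ?_
    rw [pd_Pm hT]
    ring
  rw [e]
  have h2 : ((1 - r2 θ) ^ (m - 1)) ^ 2 ≤ 1 := by
    have h3 : (1 - r2 θ) ^ (m - 1) ≤ 1 := pow_le_one₀ h0 h1
    have h4 : 0 ≤ (1 - r2 θ) ^ (m - 1) := pow_nonneg h0 _
    exact pow_le_one₀ h4 h3
  have h5 := grP_bd hT θ
  have h6 : 0 ≤ gr (1 - r2) θ := Finset.sum_nonneg fun _ _ => sq_nonneg _
  calc (m : ℝ) ^ 2 * ((1 - r2 θ) ^ (m - 1)) ^ 2 * gr (1 - r2) θ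
      ≤ (m : ℝ) ^ 2 * 1 * (4 / (Fintype.card V : ℝ)) := by
        refine mul_le_mul ?_ h5 h6 (by positivity)
        exact mul_le_mul_of_nonneg_left h2 (by positivity)
    _ = _ := by ring

theorem grPmX_bd (hT : S_TPB) (m : ℕ) (f : V → ℝ) (θ : V → ℝ) :
    gr ((1 - r2 : (V → ℝ) → ℝ) ^ m * Xf f) θ ≤ 2 * (∑ x, f x ^ 2) * (1 - r2 θ) ^ (2 * m) +
      8 * (m : ℝ) ^ 2 / (Fintype.card V : ℝ) * Nf f θ := by
  have hv : (0 : ℝ) < Fintype.card V := by exact_mod_cast Fintype.card_pos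
  obtain ⟨m1, -⟩ := hT.mem f
  have h1 : gr ((1 - r2 : (V → ℝ) → ℝ) ^ m * Xf f) θ ≤
      2 * (gr ((1 - r2 : (V → ℝ) → ℝ) ^ m) θ * Xf f θ ^ 2) +
      2 * (((1 - r2 θ) ^ m) ^ 2 * ∑ x, f x ^ 2) := by
    unfold gr
    rw [Finset.sum_mul, Finset.mul_sum, Finset.mul_sum, Finset.mul_sum, ← Finset.sum_add_distrib]
    apply Finset.sum_le_sum
    intro x _
    rw [hT.pdmul _ _ (Pm_mem hT m) m1, (hT.pdX f x θ).1]
    have e : ((1 - r2 : (V → ℝ) → ℝ) ^ m) θ = (1 - r2 θ) ^ m := rfl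
    rw [e]
    have h2 : ((1 - r2 θ) ^ m) ^ 2 * (-f x * Real.sin (θ x)) ^ 2 ≤
        ((1 - r2 θ) ^ m) ^ 2 * f x ^ 2 := by
      apply mul_le_mul_of_nonneg_left _ (sq_nonneg _)
      have : Real.sin (θ x) ^ 2 ≤ 1 := Real.sin_sq_le_one _
      nlinarith [sq_nonneg (f x)]
    nlinarith [sq_nonneg (pd x ((1 - r2 : (V → ℝ) → ℝ) ^ m) θ * Xf f θ -
      (1 - r2 θ) ^ m * (-f x * Real.sin (θ x)))]
  have h3 : gr ((1 - r2 : (V → ℝ) → ℝ) ^ m) θ * Xf f θ ^ 2 ≤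
      4 * (m : ℝ) ^ 2 / (Fintype.card V : ℝ) * Nf f θ := by
    refine mul_le_mul (grPm_bd hT m θ) ?_ (sq_nonneg _) (by positivity)
    unfold Nf
    nlinarith [sq_nonneg (Yf f θ)]
  calc gr ((1 - r2 : (V → ℝ) → ℝ) ^ m * Xf f) θ ≤ _ := h1
    _ ≤ 2 * (4 * (m : ℝ) ^ 2 / (Fintype.card V : ℝ) * Nf f θ) +
        2 * (((1 - r2 θ) ^ m) ^ 2 * ∑ x, f x ^ 2) := by linarith
    _ = _ := by
        rw [← pow_mul, mul_comm m 2]
        ring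

end gen

section torus

variable {d L : ℕ} [NeZero L]

/-- the trial function -/
noncomputable def Rk (P : ((Fin d → ZMod L) → ℝ) → ℝ) (f : (Fin d → ZMod L) → ℝ) (κ : ℝ) :
    ((Fin d → ZMod L) → ℝ) → ℝ := P + κ • (P * Xf f)

/-- the main inequality before the choice of the parameters -/
theorem ineq (hT : S_TPB) {U : ℝ} {μ : Measure ((Fin d → ZMod L) → ℝ)} (hE : Env U μ) {l : ℝ}
    {f : (Fin d → ZMod L) → ℝ} (hf : ∀ x, lap f x = l * f x)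
    {P : ((Fin d → ZMod L) → ℝ) → ℝ} (hP : P ∈ TP (Fin d → ZMod L)) (t κ : ℝ) :
    2 * t * l * κ * (∫ θ, Xf f θ ^ 2 * P θ ^ 2 ∂μ) ≤
      U * ((∫ θ, gr P θ ∂μ) + κ ^ 2 * ∫ θ, gr (P * Xf f) θ ∂μ) +
      t ^ 2 * l / 2 * (∑ x, f x ^ 2) * ((∫ θ, P θ ^ 2 ∂μ) +
        κ ^ 2 * ∫ θ, Xf f θ ^ 2 * P θ ^ 2 ∂μ) := by
  have := hE.prob
  obtain ⟨m1, -⟩ := hT.mem f
  have hPX := mul_mem hP m1
  have hR : ∀ κ : ℝ, Rk P f κ ∈ TP (Fin d → ZMod L) :=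
    fun κ => add_mem hP (Subalgebra.smul_mem _ hPX κ)
  have hRe : ∀ (κ : ℝ) (θ : (Fin d → ZMod L) → ℝ), Rk P f κ θ =
      P θ + κ * (P θ * Xf f θ) := fun _ _ => rfl
  have hP2 : (fun θ : (Fin d → ZMod L) → ℝ => P θ ^ 2) ∈ TP (Fin d → ZMod L) :=
    pow_mem hP 2
  -- the three expansions
  have e1 : ∀ κ : ℝ, ∫ θ, Xf f θ * Rk P f κ θ ^ 2 ∂μ =
      (∫ θ, Xf f θ * P θ ^ 2 ∂μ) +
      2 * κ * (∫ θ, Xf f θ ^ 2 * P θ ^ 2 ∂μ) +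
      κ ^ 2 * ∫ θ, Xf f θ ^ 3 * P θ ^ 2 ∂μ := by
    intro κ
    refine int3 hT (F0 := fun θ => Xf f θ * P θ ^ 2)
      (F1 := fun θ => Xf f θ ^ 2 * P θ ^ 2)
      (F2 := fun θ => Xf f θ ^ 3 * P θ ^ 2) (mul_mem m1 hP2)
      (mul_mem (pow_mem m1 2) hP2) (mul_mem (pow_mem m1 3) hP2) κ ?_
    intro θ
    simp only [hRe]
    ring
  have e2 : ∀ κ : ℝ, ∫ θ, Rk P f κ θ ^ 2 ∂μ =
      (∫ θ, P θ ^ 2 ∂μ) +
      2 * κ * (∫ θ, Xf f θ * P θ ^ 2 ∂μ) +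
      κ ^ 2 * ∫ θ, Xf f θ ^ 2 * P θ ^ 2 ∂μ := by
    intro κ
    refine int3 hT (F0 := fun θ => P θ ^ 2)
      (F1 := fun θ => Xf f θ * P θ ^ 2)
      (F2 := fun θ => Xf f θ ^ 2 * P θ ^ 2) hP2
      (mul_mem m1 hP2) (mul_mem (pow_mem m1 2) hP2) κ ?_
    intro θ
    simp only [hRe]
    ring
  have e3 : ∀ κ : ℝ, ∫ θ, gr (Rk P f κ) θ ∂μ =
      (∫ θ, gr P θ ∂μ) +
      2 * κ * (∫ θ, (∑ x, pd x P * pd x (P * Xf f)) θ ∂μ) +
      κ ^ 2 * ∫ θ, gr (P * Xf f) θ ∂μ := by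
    intro κ
    refine int3 hT (F0 := gr P)
      (F1 := ∑ x, pd x P * pd x (P * Xf f))
      (F2 := gr (P * Xf f)) (hT.grmem _ hP)
      (sum_mem fun x _ => mul_mem (hT.pdmem _ hP x) (hT.pdmem _ hPX x)) (hT.grmem _ hPX) κ ?_
    intro θ
    unfold gr Rk
    rw [Finset.sum_apply, Finset.mul_sum, Finset.mul_sum, ← Finset.sum_add_distrib,
      ← Finset.sum_add_distrib]
    refine Finset.sum_congr rfl fun x _ => ?_
    rw [hT.pdadd _ _ hP (Subalgebra.smul_mem _ hPX κ), pd_smul hT hPX, Pi.mul_apply]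
    ring
  have s1 := hE.star _ (hR κ) t l f hf
  have s2 := hE.star _ (hR (-κ)) (-t) l f hf
  rw [e1, e2, e3] at s1 s2
  have q2 : (-t) ^ 2 = t ^ 2 := by ring
  have q3 : (-κ) ^ 2 = κ ^ 2 := by ring
  rw [q2, q3] at s2
  linarith

/-- the bound for the first component -/
theorem boundX (hT : S_TPB) (m : ℕ) {U l : ℝ} {μ : Measure ((Fin d → ZMod L) → ℝ)}
    {f : (Fin d → ZMod L) → ℝ} (hU : 0 < U) (hl : 0 < l) (hE : Env U μ)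
    (hf : ∀ x, lap f x = l * f x) :
    ∫ θ, Xf f θ ^ 2 * ((1 - r2 θ) ^ m) ^ 2 ∂μ ≤
      (8 * ((m : ℝ) ^ 2 + 1)) * ((∑ x, f x ^ 2) * Real.sqrt U / Real.sqrt l * am (2 * m) μ +
          (∑ x, f x ^ 2) * U / ((Fintype.card (Fin d → ZMod L) : ℝ) * l)) := by
  have := hE.prob
  obtain ⟨m1, m2, m3, m4, m5, m6, m7, m8⟩ := hT.mem f
  obtain ⟨v, hv⟩ : ∃ v : ℝ, v = (Fintype.card (Fin d → ZMod L) : ℝ) := ⟨_, rfl⟩
  have hv0 : 0 < v := by rw [hv]; exact_mod_cast Fintype.card_pos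
  obtain ⟨σ, hσ⟩ : ∃ σ : ℝ, σ = ∑ x, f x ^ 2 := ⟨_, rfl⟩
  have hσ0 : 0 ≤ σ := by rw [hσ]; exact Finset.sum_nonneg fun _ _ => sq_nonneg _
  obtain ⟨a, ha⟩ : ∃ a : ℝ, a = Real.sqrt U := ⟨_, rfl⟩
  obtain ⟨b, hb⟩ : ∃ b : ℝ, b = Real.sqrt l := ⟨_, rfl⟩
  have ha0 : 0 < a := by rw [ha]; exact Real.sqrt_pos.2 hU
  have hb0 : 0 < b := by rw [hb]; exact Real.sqrt_pos.2 hl
  have haU : U = a ^ 2 := by rw [ha]; exact (Real.sq_sqrt hU.le).symm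
  have hbl : l = b ^ 2 := by rw [hb]; exact (Real.sq_sqrt hl.le).symm
  have hAe : ∫ θ, ((1 - r2 θ) ^ m) ^ 2 ∂μ = am (2 * m) μ := by
    unfold am
    refine integral_congr_ae (Eventually.of_forall fun θ => ?_)
    show ((1 - r2 θ) ^ m) ^ 2 = (1 - r2 θ) ^ (2 * m)
    rw [← pow_mul, mul_comm m 2]
  have hA0 : 0 ≤ am (2 * m) μ := by
    rw [← hAe]
    exact integral_nonneg fun θ => sq_nonneg _
  obtain ⟨A, hA⟩ : ∃ A : ℝ, A = am (2 * m) μ := ⟨_, rfl⟩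
  obtain ⟨W, hW⟩ : ∃ W : ℝ, W = ∫ θ, Xf f θ ^ 2 * ((1 - r2 θ) ^ m) ^ 2 ∂μ := ⟨_, rfl⟩
  obtain ⟨M, hM⟩ : ∃ M : ℝ, M = (m : ℝ) ^ 2 := ⟨_, rfl⟩
  have hM0 : 0 ≤ M := by rw [hM]; positivity
  rw [← hW, ← hσ, ← ha, ← hb, ← hA, ← hv, ← hM]
  rw [← hA] at hA0 hAe
  rcases hσ0.eq_or_lt with hσz | hσp
  · have hf0 : ∀ x, f x = 0 := by
      intro x
      rw [hσ] at hσz
      have h1 := (Finset.sum_eq_zero_iff_of_nonneg (fun x _ => sq_nonneg (f x))).1 hσz.symm x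
        (Finset.mem_univ x)
      exact pow_eq_zero_iff (two_ne_zero) |>.1 h1
    have h0 : ∀ θ : (Fin d → ZMod L) → ℝ, Xf f θ ^ 2 * ((1 - r2 θ) ^ m) ^ 2 = 0 := by
      intro θ
      have : Xf f θ = 0 := by simp [Xf, hf0]
      rw [this]; ring
    have hW0 : W = 0 := by
      rw [hW]
      simp only [h0, integral_zero]
    rw [hW0, ← hσz]
    simp
  have hN : ∫ θ, Nf f θ ∂μ ≤ a / b * σ := by
    rw [ha, hb, hσ]
    exact hE.irb l f hl hf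
  have hiN : Integrable (fun θ => Nf f θ) μ := integ hT m6
  have g0 : ∫ θ, gr ((1 - r2 : ((Fin d → ZMod L) → ℝ) → ℝ) ^ m) θ ∂μ ≤ 4 * M / v := by
    have h1 : ∫ θ, gr ((1 - r2 : ((Fin d → ZMod L) → ℝ) → ℝ) ^ m) θ ∂μ ≤
        ∫ _θ : (Fin d → ZMod L) → ℝ, 4 * M / v ∂μ :=
      integral_mono_of_nonneg (Eventually.of_forall fun θ =>
        Finset.sum_nonneg fun _ _ => sq_nonneg _) (integrable_const _)
        (Eventually.of_forall fun θ => by rw [hv, hM]; exact grPm_bd hT m θ)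
    simpa using h1
  have hP2 : Integrable (fun θ : (Fin d → ZMod L) → ℝ => (1 - r2 θ) ^ (2 * m)) μ :=
    integ hT (pow_mem (P_mem hT) (2 * m))
  have g2 : ∫ θ, gr ((1 - r2 : ((Fin d → ZMod L) → ℝ) → ℝ) ^ m * Xf f) θ ∂μ ≤
      2 * σ * A + 8 * M / v * (a / b * σ) := by
    have hi1 : Integrable (fun θ : (Fin d → ZMod L) → ℝ => 2 * σ * (1 - r2 θ) ^ (2 * m)) μ :=
      hP2.const_mul _
    have hi2 : Integrable (fun θ => 8 * M / v * Nf f θ) μ := hiN.const_mul _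
    have h1 : ∫ θ, gr ((1 - r2 : ((Fin d → ZMod L) → ℝ) → ℝ) ^ m * Xf f) θ ∂μ ≤
        ∫ θ, (2 * σ * (1 - r2 θ) ^ (2 * m) + 8 * M / v * Nf f θ) ∂μ :=
      integral_mono_of_nonneg (Eventually.of_forall fun θ =>
        Finset.sum_nonneg fun _ _ => sq_nonneg _) (hi1.add hi2)
        (Eventually.of_forall fun θ => by rw [hv, hσ, hM]; exact grPmX_bd hT m f θ)
    rw [integral_add hi1 hi2, integral_const_mul, integral_const_mul] at h1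
    have e : ∫ θ, (1 - r2 θ) ^ (2 * m) ∂μ = A := by rw [hA]; rfl
    rw [e] at h1
    exact h1.trans (add_le_add le_rfl (mul_le_mul_of_nonneg_left hN (by positivity)))
  -- parameters
  obtain ⟨T, hTd⟩ : ∃ T : ℝ, T = a / (b * σ) := ⟨_, rfl⟩
  obtain ⟨s, hs⟩ : ∃ s : ℝ, s = b / a := ⟨_, rfl⟩
  have hs0 : 0 < s := by rw [hs]; positivity
  have hT0 : 0 < T := by rw [hTd]; positivity
  have ht2 : Real.sqrt T * Real.sqrt T = T := Real.mul_self_sqrt hT0.le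
  have h1 := ineq hT hE hf (Pm_mem (V := Fin d → ZMod L) hT m) (Real.sqrt T) (Real.sqrt T * s)
  have e0 : ∀ θ : (Fin d → ZMod L) → ℝ, ((1 - r2 : ((Fin d → ZMod L) → ℝ) → ℝ) ^ m) θ =
      (1 - r2 θ) ^ m := fun _ => rfl
  simp only [e0] at h1
  rw [← hW, ← hσ, hAe] at h1
  have q1 : 2 * Real.sqrt T * l * (Real.sqrt T * s) = T * (2 * s * b ^ 2) := by
    rw [hbl]
    calc _ = (Real.sqrt T * Real.sqrt T) * (2 * s * b ^ 2) := by ring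
      _ = _ := by rw [ht2]
  have q2 : (Real.sqrt T * s) ^ 2 = T * s ^ 2 := by
    rw [mul_pow, pow_two (Real.sqrt T), ht2]
  have q3 : Real.sqrt T ^ 2 = T := by rw [pow_two, ht2]
  rw [q1, q2, q3, haU, hbl] at h1
  have h2 : a ^ 2 * ((∫ θ, gr ((1 - r2 : ((Fin d → ZMod L) → ℝ) → ℝ) ^ m) θ ∂μ) +
      T * s ^ 2 * ∫ θ, gr ((1 - r2 : ((Fin d → ZMod L) → ℝ) → ℝ) ^ m * Xf f) θ ∂μ) ≤
      a ^ 2 * (4 * M / v + T * s ^ 2 * (2 * σ * A + 8 * M / v * (a / b * σ))) := by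
    apply mul_le_mul_of_nonneg_left _ (sq_nonneg _)
    exact add_le_add g0 (mul_le_mul_of_nonneg_left g2 (by positivity))
  have h3 := h1.trans (add_le_add h2 le_rfl)
  have k1 : T * (2 * s * b ^ 2) * W = 2 * (b ^ 2 / σ * W) := by
    rw [hTd, hs]
    field_simp
  have k2 : a ^ 2 * (4 * M / v + T * s ^ 2 * (2 * σ * A + 8 * M / v * (a / b * σ))) =
      12 * (M * (a ^ 2 / v)) + 2 * (a * b * A) := by
    rw [hTd, hs]
    field_simp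
    ring
  have k3 : T * b ^ 2 / 2 * σ * (A + T * s ^ 2 * W) = a * b * A / 2 + b ^ 2 / σ * W / 2 := by
    rw [hTd, hs]
    field_simp
  rw [k1, k2, k3] at h3
  have hav : 0 ≤ a ^ 2 / v := by positivity
  have hab : 0 ≤ a * b * A := by positivity
  have hMab : 0 ≤ M * (a * b * A) := by positivity
  have h4 : b ^ 2 / σ * W ≤ 8 * (M + 1) * (a ^ 2 / v + a * b * A) := by
    nlinarith
  have h5 : W = σ / b ^ 2 * (b ^ 2 / σ * W) := by field_simp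
  rw [h5]
  refine (mul_le_mul_of_nonneg_left h4 (by positivity)).trans (le_of_eq ?_)
  rw [haU, hbl]
  field_simp
  ring

/-- rotation by a right angle -/
theorem rotXY (hT : S_TPB) (m : ℕ) {U : ℝ} {μ : Measure ((Fin d → ZMod L) → ℝ)}
    (hE : Env U μ) (f : (Fin d → ZMod L) → ℝ) :
    ∫ θ, Yf f θ ^ 2 * ((1 - r2 θ) ^ m) ^ 2 ∂μ = ∫ θ, Xf f θ ^ 2 * ((1 - r2 θ) ^ m) ^ 2 ∂μ := by
  obtain ⟨m1, m2, m3, m4, m5, m6, m7, m8⟩ := hT.mem f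
  have hR : (fun θ : (Fin d → ZMod L) → ℝ => Xf f θ ^ 2 * ((1 - r2 θ) ^ m) ^ 2) ∈
      TP (Fin d → ZMod L) :=
    mul_mem (pow_mem m1 2) (pow_mem (Pm_mem hT m) 2)
  have h := hE.rot _ hR (Real.pi / 2)
  rw [← h]
  refine integral_congr_ae (Eventually.of_forall fun θ => ?_)
  obtain ⟨h1, -, -, -, h5, -⟩ := hT.rot f θ (Real.pi / 2)
  show Yf f θ ^ 2 * ((1 - r2 θ) ^ m) ^ 2 =
    Xf f (fun x => θ x + Real.pi / 2) ^ 2 * ((1 - r2 (fun x => θ x + Real.pi / 2)) ^ m) ^ 2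
  rw [h1, h5, Real.cos_pi_div_two, Real.sin_pi_div_two]
  ring

end torus

/-- **Task 3** -/
theorem task3 (hT : S_TPB) : Pool.Agent.H993.CF.T_SQ := by
  intro m
  refine ⟨2 * (8 * ((m : ℝ) ^ 2 + 1)), by positivity, ?_⟩
  intro d L _ U l μ f hU hl hE hf
  have := hE.prob
  obtain ⟨m1, m2, m3, m4, m5, m6, m7, m8⟩ := hT.mem f
  have iX : Integrable (fun θ => Xf f θ ^ 2 * ((1 - r2 θ) ^ m) ^ 2) μ :=
    integ hT (mul_mem (pow_mem m1 2) (pow_mem (Pm_mem hT m) 2))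
  have iY : Integrable (fun θ => Yf f θ ^ 2 * ((1 - r2 θ) ^ m) ^ 2) μ :=
    integ hT (mul_mem (pow_mem m2 2) (pow_mem (Pm_mem hT m) 2))
  have e : ∫ θ, Nf f θ * (1 - r2 θ) ^ (2 * m) ∂μ =
      2 * ∫ θ, Xf f θ ^ 2 * ((1 - r2 θ) ^ m) ^ 2 ∂μ := by
    have h1 : ∫ θ, Nf f θ * (1 - r2 θ) ^ (2 * m) ∂μ =
        ∫ θ, (Xf f θ ^ 2 * ((1 - r2 θ) ^ m) ^ 2 + Yf f θ ^ 2 * ((1 - r2 θ) ^ m) ^ 2) ∂μ := by
      refine integral_congr_ae (Eventually.of_forall fun θ => ?_)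
      show (Xf f θ ^ 2 + Yf f θ ^ 2) * (1 - r2 θ) ^ (2 * m) =
        Xf f θ ^ 2 * ((1 - r2 θ) ^ m) ^ 2 + Yf f θ ^ 2 * ((1 - r2 θ) ^ m) ^ 2
      rw [mul_comm 2 m, pow_mul]
      ring
    rw [h1, integral_add iX iY, rotXY hT m hE f]
    ring
  rw [e, mul_assoc 2]
  exact mul_le_mul_of_nonneg_left (boundX hT m hU hl hE hf) (by norm_num)

end Pool.Agent.H993.CF.T3
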