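import Pool.Graph.R_pool_sql_team_seeded_63374d34.N657.QL.Stm

/-!
# Project CF: the fluctuations of the condensate fraction, statements
-/

namespace Pool.Agent.H993.CF

open MeasureTheory
open Pool.Agent.N657.QR Pool.Agent.N657.QL

/-- The moments of the depletion. -/
noncomputable def am {d L : ℕ} [NeZero L] (m : ℕ) (μ : Measure ((Fin d → ZMod L) → ℝ)) : ℝ :=
  ∫ θ, (1 - r2 θ) ^ m ∂μ

/-- Task 1. -/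
def T_ENV : Prop :=
  ∀ (d L : ℕ) [NeZero L] (U : ℝ) (Ψ : ((Fin d → ZMod L) → ℤ) → ℝ), Even L → 0 < U →
    IsG (U • (1 : Matrix (Fin d → ZMod L) (Fin d → ZMod L) ℝ)) (nnw 1) 0 0 Ψ →
    ∃ μ : Measure ((Fin d → ZMod L) → ℝ), Env U μ ∧ IsMeas Ψ μ

/-- Task 2. -/
def T_ROTA : Prop :=
  ∀ (d L : ℕ) [NeZero L] (U : ℝ) (μ : Measure ((Fin d → ZMod L) → ℝ)), Env U μ →
    ∀ (M : ℕ) (f : (Fin d → ZMod L) → ℝ),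
      ∫ θ, (1 + mx θ) ^ (2 * M) * (1 - r2 θ) ^ 2 ∂μ = ∫ θ, AM M (r2 θ) * (1 - r2 θ) ^ 2 ∂μ ∧
      ∫ θ, (1 + my θ) ^ (2 * M) * (1 - r2 θ) ^ 2 ∂μ = ∫ θ, AM M (r2 θ) * (1 - r2 θ) ^ 2 ∂μ ∧
      ∫ θ, Xf f θ * Lf f θ * (1 + mx θ) ^ (2 * M) * (1 - r2 θ) ^ 2 ∂μ =
        ∫ θ, cM M (r2 θ) * Lf f θ ^ 2 * (1 - r2 θ) ^ 2 ∂μ ∧
      ∫ θ, Xf f θ * Tf f θ * (1 + my θ) ^ (2 * M) * (1 - r2 θ) ^ 2 ∂μ =
        -∫ θ, cM M (r2 θ) * Tf f θ ^ 2 * (1 - r2 θ) ^ 2 ∂μ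

/-- Task 3. -/
def T_SQ : Prop :=
  ∀ m : ℕ, ∃ C : ℝ, 0 < C ∧ ∀ (d L : ℕ) [NeZero L] (U l : ℝ)
    (μ : Measure ((Fin d → ZMod L) → ℝ)) (f : (Fin d → ZMod L) → ℝ), 0 < U → 0 < l → Env U μ →
    (∀ x, lap f x = l * f x) →
      ∫ θ, Nf f θ * (1 - r2 θ) ^ (2 * m) ∂μ ≤
        C * ((∑ x, f x ^ 2) * Real.sqrt U / Real.sqrt l * am (2 * m) μ +
          (∑ x, f x ^ 2) * U / ((Fintype.card (Fin d → ZMod L) : ℝ) * l))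

/-- Task 4. -/
def T_TRANS : Prop :=
  ∀ (M : ℕ) (δ : ℝ), 0 < δ → ∃ C : ℝ, 0 ≤ C ∧
    ∀ (d L : ℕ) [NeZero L] (U l : ℝ) (μ : Measure ((Fin d → ZMod L) → ℝ))
      (f : (Fin d → ZMod L) → ℝ), 0 < U → 0 < l → Env U μ → (∀ x, lap f x = l * f x) →
      ∫ θ, cM M (r2 θ) * Tf f θ ^ 2 * (1 - r2 θ) ^ 2 ∂μ ≤
        (1 + δ) * AM M 1 * (∑ x, f x ^ 2) * Real.sqrt U / (Real.sqrt 2 * Real.sqrt l) * am 2 μ +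
        C * (∑ x, f x ^ 2) * U / ((Fintype.card (Fin d → ZMod L) : ℝ) * l)

/-- Task 5. -/
def T_LONG : Prop :=
  ∀ (M : ℕ) (δ : ℝ), 0 < δ → ∃ a₀ C : ℝ, 0 < a₀ ∧ 0 ≤ C ∧
    ∀ (d L : ℕ) [NeZero L] (U l : ℝ) (μ : Measure ((Fin d → ZMod L) → ℝ))
      (f : (Fin d → ZMod L) → ℝ), 0 < U → 0 < l → Env U μ → (∀ x, lap f x = l * f x) →
      am 3 μ ≤ a₀ * am 2 μ →
      ∫ θ, cM M (r2 θ) * Lf f θ ^ 2 * (1 - r2 θ) ^ 2 ∂μ ≤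
        δ * (∑ x, f x ^ 2) * Real.sqrt U / Real.sqrt l * am 2 μ +
        C * (∑ x, f x ^ 2) * U / ((Fintype.card (Fin d → ZMod L) : ℝ) * l)

/-- Task 4a: one gradient bound for the transverse trial function. -/
def T_GRT : Prop :=
  ∀ (M : ℕ) (e : ℝ), 0 < e → ∃ C : ℝ, 0 ≤ C ∧
    ∀ (d L : ℕ) [NeZero L] (U l : ℝ) (μ : Measure ((Fin d → ZMod L) → ℝ))
      (f : (Fin d → ZMod L) → ℝ), 0 < U → 0 < l → Env U μ → (∀ x, lap f x = l * f x) →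
      ∫ θ, gr ((1 - r2) * (1 + my) ^ M) θ ∂μ ≤ C / (Fintype.card (Fin d → ZMod L) : ℝ) ∧
      ∫ θ, gr ((1 - r2) * (1 + my) ^ M * Tf f) θ ∂μ ≤
        (1 + e) ^ 3 * (∑ x, f x ^ 2) * (∫ θ, (1 + my θ) ^ (2 * M) * (1 - r2 θ) ^ 2 ∂μ) +
        C / (Fintype.card (Fin d → ZMod L) : ℝ) *
          ((∑ x, f x ^ 2) * Real.sqrt U / Real.sqrt l)

/-- Task 5a: one gradient bound for the longitudinal trial function. -/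
def T_GRL : Prop :=
  ∀ M : ℕ, ∃ C : ℝ, 0 ≤ C ∧
    ∀ (d L : ℕ) [NeZero L] (U l : ℝ) (μ : Measure ((Fin d → ZMod L) → ℝ))
      (f : (Fin d → ZMod L) → ℝ), 0 < U → 0 < l → Env U μ → (∀ x, lap f x = l * f x) →
      ∫ θ, gr ((1 - r2) * (1 + mx) ^ M) θ ∂μ ≤ C / (Fintype.card (Fin d → ZMod L) : ℝ) ∧
      ∫ θ, gr ((1 - r2) * (1 + mx) ^ M * Lf f) θ ∂μ ≤
        8 * 4 ^ M * (∑ x, f x ^ 2) * am 3 μ +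
        C / (Fintype.card (Fin d → ZMod L) : ℝ) *
          ((∑ x, f x ^ 2) * Real.sqrt U / Real.sqrt l)

end Pool.Agent.H993.CF
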