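import Pool.Graph.R_pool_sql_team_seeded_63374d34.N691.QL_TRANS
import Pool.Agent.H993.CF.Stm

/-!
# Project CF, task 4: the weighted transverse bound (adapted from the library file N691/QL_TRANS)
-/

set_option autoImplicit false
set_option maxHeartbeats 4000000

namespace Pool.Agent.H993.CF.T4

open MeasureTheory Filter Topology
open Pool.Agent.N657.QR Pool.Agent.N657.QL Pool.Agent.N691.QLT Pool.Agent.H993.CF

/-- The algebra at the end. -/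
theorem fin_alg2 (A σ u v q n e δ K C1 s t2 E2 W GP GQ IP IQ : ℝ)
    (hu : 0 < u) (hv : 0 < v) (hq : 0 < q) (hq2 : q ^ 2 = 2) (hσ : 0 < σ) (hn : 0 < n)
    (he : 0 < e) (he4 : e ≤ 1 / 4) (heδ : 4 * e ≤ δ) (hA : 1 ≤ A) (hK : 0 < K)
    (hC1 : 0 ≤ C1) (hE2 : 0 ≤ E2) (hs : s = v / (q * u)) (ht : t2 = 2 * e * u / (v * σ * K))
    (hGP : GP ≤ C1 / n)
    (hGQ : GQ ≤ (1 + e) ^ 3 * σ * (A * E2) + C1 / n * (σ * u / v)) (hIP : IP ≤ A * E2)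
    (hIQ : IQ ≤ K * (σ * u / v * E2 + σ * u ^ 2 / (n * v ^ 2)))
    (hm : 2 * t2 * s * v ^ 2 * W ≤ u ^ 2 * (GP + t2 * s ^ 2 * GQ) +
      t2 * v ^ 2 / 2 * σ * (IP + t2 * s ^ 2 * IQ)) :
    W ≤ (1 + δ) * A * σ * u / (q * v) * E2 +
      (C1 * K / e + C1 + e) * σ * u ^ 2 / (n * v ^ 2) := by
  have ht0 : 0 < t2 := by rw [ht]; positivity
  have hs0 : 0 < s := by rw [hs]; positivity
  have hKK : 0 < 2 * t2 * s * v ^ 2 := by positivity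
  refine le_of_mul_le_mul_left (le_trans hm ?_) hKK
  have h1 : t2 * s ^ 2 = e * v / (u * σ * K) := by
    rw [ht, hs, div_pow, mul_pow, hq2]
    field_simp
  have h2 : 2 * t2 * s * v ^ 2 = 4 * e * v ^ 2 / (q * σ * K) := by
    rw [ht, hs]
    field_simp
    ring
  have h5 : u ^ 2 * (GP + t2 * s ^ 2 * GQ) ≤
      u ^ 2 * (C1 / n + e * v / (u * σ * K) *
        ((1 + e) ^ 3 * σ * (A * E2) + C1 / n * (σ * u / v))) := by
    rw [h1]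
    gcongr
  have h6 : t2 * v ^ 2 / 2 * σ * (IP + t2 * s ^ 2 * IQ) ≤
      t2 * v ^ 2 / 2 * σ * (A * E2 + e * v / (u * σ * K) *
        (K * (σ * u / v * E2 + σ * u ^ 2 / (n * v ^ 2)))) := by
    rw [h1]
    gcongr
  have h7 : t2 * v ^ 2 / 2 * σ * (A * E2 + e * v / (u * σ * K) *
        (K * (σ * u / v * E2 + σ * u ^ 2 / (n * v ^ 2)))) =
      e * u * v / K * ((A + e) * E2) + u ^ 2 / (K * n) * e ^ 2 := by
    rw [ht]
    field_simp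
    ring
  have h8 : u ^ 2 * (C1 / n + e * v / (u * σ * K) *
        ((1 + e) ^ 3 * σ * (A * E2) + C1 / n * (σ * u / v))) =
      e * u * v / K * ((1 + e) ^ 3 * A * E2) + u ^ 2 / (K * n) * (C1 * K + e * C1) := by
    field_simp
    ring
  have h9 : 4 * e * v ^ 2 / (q * σ * K) *
      ((1 + δ) * A * σ * u / (q * v) * E2 +
        (C1 * K / e + C1 + e) * σ * u ^ 2 / (n * v ^ 2)) =
      e * u * v / K * (2 * (1 + δ) * A * E2) +
        u ^ 2 / (K * n) * (4 / q * (C1 * K + e * C1 + e ^ 2)) := by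
    field_simp
    linear_combination (-2 * (e * v * (1 + δ) * A * n * E2)) * hq2
  have h10 : (1 + e) ^ 3 * A * E2 + (A + e) * E2 ≤ 2 * (1 + δ) * A * E2 := by
    have h11 : (1 + e) ^ 3 ≤ 1 + 4 * e := by nlinarith [mul_pos he he]
    have h12 : (1 + e) ^ 3 * A + (A + e) ≤ 2 * (1 + δ) * A := by
      have h13 : (1 + e) ^ 3 * A ≤ (1 + 4 * e) * A :=
        mul_le_mul_of_nonneg_right h11 (by linarith)
      have h14 : e ≤ e * A := le_mul_of_one_le_right he.le hA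
      have h15 : 4 * e * A ≤ δ * A := mul_le_mul_of_nonneg_right heδ (by linarith)
      nlinarith
    calc (1 + e) ^ 3 * A * E2 + (A + e) * E2 = ((1 + e) ^ 3 * A + (A + e)) * E2 := by ring
      _ ≤ 2 * (1 + δ) * A * E2 := mul_le_mul_of_nonneg_right h12 hE2
  have h11 : C1 * K + e * C1 + e ^ 2 ≤ 4 / q * (C1 * K + e * C1 + e ^ 2) := by
    have hq4 : q ≤ 4 := by nlinarith
    have h12 : 1 ≤ 4 / q := by rw [le_div_iff₀ hq]; linarith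
    have h13 : 0 ≤ C1 * K + e * C1 + e ^ 2 := by positivity
    nlinarith
  rw [h2, h9]
  have h14 : e * u * v / K * ((1 + e) ^ 3 * A * E2) + e * u * v / K * ((A + e) * E2) ≤
      e * u * v / K * (2 * (1 + δ) * A * E2) := by
    rw [← mul_add]
    exact mul_le_mul_of_nonneg_left h10 (by positivity)
  have h15 : u ^ 2 / (K * n) * (C1 * K + e * C1 + e ^ 2) ≤
      u ^ 2 / (K * n) * (4 / q * (C1 * K + e * C1 + e ^ 2)) :=
    mul_le_mul_of_nonneg_left h11 (by positivity)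
  have h16 : u ^ 2 / (K * n) * (C1 * K + e * C1 + e ^ 2) =
      u ^ 2 / (K * n) * (C1 * K + e * C1) + u ^ 2 / (K * n) * e ^ 2 := by ring
  linarith

theorem task4 (hT : S_TPB) (hQ : Pool.Agent.N657.QL.S_RATIO) (h2 : T_ROTA) (h3 : T_SQ)
    (h4 : T_GRT) : T_TRANS := by
  intro M δ hδ
  obtain ⟨e, he, he4, heδ⟩ : ∃ e : ℝ, 0 < e ∧ e ≤ 1 / 4 ∧ 4 * e ≤ δ :=
    ⟨min δ 1 / 4, by positivity, by linarith [min_le_right δ 1], by linarith [min_le_left δ 1]⟩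
  obtain ⟨C1, hC1, h4'⟩ := h4 M e he
  obtain ⟨C3, hC3, h3'⟩ := h3 1
  have hK : (0 : ℝ) < 4 ^ M * C3 := by positivity
  refine ⟨C1 * (4 ^ M * C3) / e + C1 + e, by positivity, ?_⟩
  intro d L _ U l μ f hU hl hE hf
  have := hE.prob
  have hAM : 0 ≤ AM M 1 := by unfold AM; positivity
  have hσ0 : 0 ≤ ∑ x, f x ^ 2 := by positivity
  have hE2 : 0 ≤ am 2 μ := integral_nonneg fun θ => sq_nonneg _
  have hnn : 0 ≤ (1 + δ) * AM M 1 * (∑ x, f x ^ 2) * Real.sqrt U /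
        (Real.sqrt 2 * Real.sqrt l) * am 2 μ +
        (C1 * (4 ^ M * C3) / e + C1 + e) * (∑ x, f x ^ 2) * U /
          ((Fintype.card (Fin d → ZMod L) : ℝ) * l) := by positivity
  rcases Nat.eq_zero_or_pos M with hM | hM
  · subst hM
    have h0 : ∀ θ : (Fin d → ZMod L) → ℝ, cM 0 (r2 θ) * Tf f θ ^ 2 * (1 - r2 θ) ^ 2 = 0 :=
      fun θ => by simp [cM]
    simp only [h0]
    simpa using hnn
  rcases hσ0.eq_or_lt with hσ | hσ
  · have hf0 : ∀ x, f x = 0 := by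
      intro x
      have := (Finset.sum_eq_zero_iff_of_nonneg (fun x _ => sq_nonneg (f x))).1 hσ.symm x
        (Finset.mem_univ x)
      exact pow_eq_zero_iff (two_ne_zero) |>.1 this
    have h0 : ∀ θ : (Fin d → ZMod L) → ℝ, cM M (r2 θ) * Tf f θ ^ 2 * (1 - r2 θ) ^ 2 = 0 :=
      fun θ => by simp [Tf, Xf, Yf, hf0]
    simp only [h0]
    simpa using hnn
  obtain ⟨-, hq, -⟩ := hQ.2 M hM
  obtain ⟨hX, hY, hmx, hmy, hr2, hNf, hLf, hTf⟩ := hT.mem f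
  have hD : (1 - r2 : ((Fin d → ZMod L) → ℝ) → ℝ) ∈ TP (Fin d → ZMod L) :=
    sub_mem (one_mem _) hr2
  have hP : ((1 - r2) * (1 + my) ^ M : ((Fin d → ZMod L) → ℝ) → ℝ) ∈ TP (Fin d → ZMod L) :=
    mul_mem hD (pow_mem (add_mem (one_mem _) hmy) M)
  have hPT : ((1 - r2) * (1 + my) ^ M * Tf f : ((Fin d → ZMod L) → ℝ) → ℝ) ∈
      TP (Fin d → ZMod L) := mul_mem hP hTf
  have hn : (0 : ℝ) < (Fintype.card (Fin d → ZMod L) : ℝ) := by exact_mod_cast Fintype.card_pos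
  have hA1 : 1 ≤ AM M 1 := (hq 1 zero_le_one le_rfl).1
  have hAr : ∀ θ : (Fin d → ZMod L) → ℝ, AM M (r2 θ) ≤ AM M 1 := fun θ =>
    (hq _ (hT.bounds f θ).1 (hT.bounds f θ).2.1).2.1
  obtain ⟨-, hR2, -, hR4⟩ := h2 d L U μ hE M f
  have hDθ : ∀ θ : (Fin d → ZMod L) → ℝ, (1 - r2 : ((Fin d → ZMod L) → ℝ) → ℝ) θ = 1 - r2 θ :=
    fun θ => rfl
  -- the first integrals
  have hPP : ∀ θ : (Fin d → ZMod L) → ℝ,
      ((1 - r2) * (1 + my) ^ M : ((Fin d → ZMod L) → ℝ) → ℝ) θ ^ 2 =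
      (1 + my θ) ^ (2 * M) * (1 - r2 θ) ^ 2 := by
    intro θ
    rw [Pi.mul_apply, Pi.pow_apply, mul_pow, ← pow_mul, mul_comm M 2, mul_comm]
    rfl
  have hAMT : (fun θ : (Fin d → ZMod L) → ℝ => AM M (r2 θ)) ∈ TP (Fin d → ZMod L) := by
    have : (fun θ : (Fin d → ZMod L) → ℝ => AM M (r2 θ)) =
        ∑ j ∈ Finset.range (M + 1),
          (((2 * M).choose (2 * j) : ℝ) * ((2 * j).choose j : ℝ) / 4 ^ j) • r2 ^ j := by
      funext θ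
      simp [AM, Finset.sum_apply]
    rw [this]
    exact sum_mem fun j _ => Subalgebra.smul_mem _ (pow_mem hr2 j) _
  have hD2 : (fun θ : (Fin d → ZMod L) → ℝ => (1 - r2 θ) ^ 2) ∈ TP (Fin d → ZMod L) :=
    pow_mem hD 2
  have iD2 := intg hT hE _ hD2
  have iAM : Integrable (fun θ => AM M (r2 θ) * (1 - r2 θ) ^ 2) μ :=
    intg hT hE _ (mul_mem hAMT hD2)
  have iN : Integrable (fun θ => Nf f θ * (1 - r2 θ) ^ 2) μ := intg hT hE _ (mul_mem hNf hD2)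
  have hPA : ∫ θ, (1 + my θ) ^ (2 * M) * (1 - r2 θ) ^ 2 ∂μ ≤ AM M 1 * am 2 μ := by
    rw [hR2]
    unfold am
    rw [← integral_const_mul]
    exact integral_mono iAM (iD2.const_mul _) fun θ =>
      mul_le_mul_of_nonneg_right (hAr θ) (sq_nonneg _)
  have hIP : ∫ θ, ((1 - r2) * (1 + my) ^ M : ((Fin d → ZMod L) → ℝ) → ℝ) θ ^ 2 ∂μ ≤
      AM M 1 * am 2 μ := by
    simp only [hPP]; exact hPA
  have hP4 : ∀ θ : (Fin d → ZMod L) → ℝ, (1 + my θ) ^ (2 * M) ≤ 4 ^ M := by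
    intro θ
    obtain ⟨hb0, hb1⟩ := my_bd hT θ
    rw [pow_mul]
    apply pow_le_pow_left₀ (sq_nonneg _)
    nlinarith
  have hIQ : ∫ θ, ((1 - r2) * (1 + my) ^ M * Tf f : ((Fin d → ZMod L) → ℝ) → ℝ) θ ^ 2 ∂μ ≤
      4 ^ M * C3 * ((∑ x, f x ^ 2) * Real.sqrt U / Real.sqrt l * am 2 μ +
        (∑ x, f x ^ 2) * U / ((Fintype.card (Fin d → ZMod L) : ℝ) * l)) := by
    have h5 := h3' d L U l μ f hU hl hE hf
    rw [mul_one] at h5
    have h6 : ∫ θ, ((1 - r2) * (1 + my) ^ M * Tf f : ((Fin d → ZMod L) → ℝ) → ℝ) θ ^ 2 ∂μ ≤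
        4 ^ M * ∫ θ, Nf f θ * (1 - r2 θ) ^ 2 ∂μ := by
      rw [← integral_const_mul]
      refine integral_mono (intg hT hE _ (pow_mem hPT 2)) (iN.const_mul _) fun θ => ?_
      show (((1 - r2) * (1 + my) ^ M : ((Fin d → ZMod L) → ℝ) → ℝ) θ * Tf f θ) ^ 2 ≤
        4 ^ M * (Nf f θ * (1 - r2 θ) ^ 2)
      rw [mul_pow, hPP]
      calc (1 + my θ) ^ (2 * M) * (1 - r2 θ) ^ 2 * Tf f θ ^ 2 =
          (1 + my θ) ^ (2 * M) * (Tf f θ ^ 2 * (1 - r2 θ) ^ 2) := by ring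
        _ ≤ 4 ^ M * (Nf f θ * (1 - r2 θ) ^ 2) :=
          mul_le_mul (hP4 θ) (mul_le_mul_of_nonneg_right (T_le hT f θ) (sq_nonneg _))
            (by positivity) (by positivity)
    refine h6.trans ?_
    rw [mul_assoc]
    exact mul_le_mul_of_nonneg_left h5 (by positivity)
  obtain ⟨hGP, hGQ0⟩ := h4' d L U l μ f hU hl hE hf
  have hGQ : ∫ θ, gr ((1 - r2) * (1 + my) ^ M * Tf f) θ ∂μ ≤
      (1 + e) ^ 3 * (∑ x, f x ^ 2) * (AM M 1 * am 2 μ) +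
      C1 / (Fintype.card (Fin d → ZMod L) : ℝ) *
        ((∑ x, f x ^ 2) * Real.sqrt U / Real.sqrt l) := by
    refine hGQ0.trans ?_
    have : (1 + e) ^ 3 * (∑ x, f x ^ 2) * (∫ θ, (1 + my θ) ^ (2 * M) * (1 - r2 θ) ^ 2 ∂μ) ≤
        (1 + e) ^ 3 * (∑ x, f x ^ 2) * (AM M 1 * am 2 μ) :=
      mul_le_mul_of_nonneg_left hPA (by positivity)
    linarith
  have hsU : 0 < Real.sqrt U := Real.sqrt_pos.2 hU
  have hsl : 0 < Real.sqrt l := Real.sqrt_pos.2 hl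
  have hs2 : 0 < Real.sqrt 2 := Real.sqrt_pos.2 (by norm_num)
  have hU2 : Real.sqrt U ^ 2 = U := Real.sq_sqrt hU.le
  have hl2 : Real.sqrt l ^ 2 = l := Real.sq_sqrt hl.le
  have h22 : Real.sqrt 2 ^ 2 = 2 := Real.sq_sqrt (by norm_num)
  have hIQ' : ∫ θ, ((1 - r2) * (1 + my) ^ M * Tf f : ((Fin d → ZMod L) → ℝ) → ℝ) θ ^ 2 ∂μ ≤
      4 ^ M * C3 * ((∑ x, f x ^ 2) * Real.sqrt U / Real.sqrt l * am 2 μ +
        (∑ x, f x ^ 2) * Real.sqrt U ^ 2 /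
          ((Fintype.card (Fin d → ZMod L) : ℝ) * Real.sqrt l ^ 2)) := by
    rw [hU2, hl2]
    exact hIQ
  have ht0 : 0 ≤ 2 * e * Real.sqrt U / (Real.sqrt l * (∑ x, f x ^ 2) * (4 ^ M * C3)) := by
    positivity
  have hk := key hT hE
    (Real.sqrt (2 * e * Real.sqrt U / (Real.sqrt l * (∑ x, f x ^ 2) * (4 ^ M * C3)))) l
    (-(Real.sqrt (2 * e * Real.sqrt U / (Real.sqrt l * (∑ x, f x ^ 2) * (4 ^ M * C3))) *
      (Real.sqrt l / (Real.sqrt 2 * Real.sqrt U)))) f hf _ _ hP hPT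
  have hW : ∫ θ, Xf f θ * (((1 - r2) * (1 + my) ^ M : ((Fin d → ZMod L) → ℝ) → ℝ) θ *
      ((1 - r2) * (1 + my) ^ M * Tf f : ((Fin d → ZMod L) → ℝ) → ℝ) θ) ∂μ =
      -∫ θ, cM M (r2 θ) * Tf f θ ^ 2 * (1 - r2 θ) ^ 2 ∂μ := by
    rw [← hR4]
    refine integral_congr_ae (Filter.Eventually.of_forall fun θ => ?_)
    show Xf f θ * (((1 - r2) * (1 + my) ^ M : ((Fin d → ZMod L) → ℝ) → ℝ) θ *
      (((1 - r2) * (1 + my) ^ M : ((Fin d → ZMod L) → ℝ) → ℝ) θ * Tf f θ)) =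
      Xf f θ * Tf f θ * (1 + my θ) ^ (2 * M) * (1 - r2 θ) ^ 2
    have h7 := hPP θ
    linear_combination (Xf f θ * Tf f θ) * h7
  rw [hW] at hk
  have hts : Real.sqrt (2 * e * Real.sqrt U / (Real.sqrt l * (∑ x, f x ^ 2) *
      (4 ^ M * C3))) ^ 2 =
      2 * e * Real.sqrt U / (Real.sqrt l * (∑ x, f x ^ 2) * (4 ^ M * C3)) := Real.sq_sqrt ht0
  have hfin := fin_alg2 (AM M 1) (∑ x, f x ^ 2) (Real.sqrt U) (Real.sqrt l) (Real.sqrt 2)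
    (Fintype.card (Fin d → ZMod L) : ℝ) e δ (4 ^ M * C3) C1
    (Real.sqrt l / (Real.sqrt 2 * Real.sqrt U))
    (2 * e * Real.sqrt U / (Real.sqrt l * (∑ x, f x ^ 2) * (4 ^ M * C3)))
    (am 2 μ) (∫ θ, cM M (r2 θ) * Tf f θ ^ 2 * (1 - r2 θ) ^ 2 ∂μ) _ _ _ _ hsU hsl hs2 h22 hσ hn
    he he4 heδ hA1 hK hC1 hE2 rfl rfl hGP hGQ hIP hIQ' ?_
  · rw [hU2, hl2] at hfin
    exact hfin
  · rw [hU2, hl2]
    rw [← hts]
    refine le_trans (le_of_eq ?_) (le_trans hk (le_of_eq ?_))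
    · ring
    · ring

end Pool.Agent.H993.CF.T4
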