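import Pool.Agent.H993.CF.Stm
import Pool.Graph.R_pool_sql_team_seeded_63374d34.N691.QL_TRANS

/-!
# Project CF (helper993), task 4a (helper297): gradient bounds for the transverse trial function
-/

set_option autoImplicit false

namespace Pool.Agent.H993.CF.T4a

open MeasureTheory
open Pool.Agent.N657.QR Pool.Agent.N657.QL Pool.Agent.H993.CF
open Pool.Agent.N691.QLT (young my_bd T_le grP_le grQ_le intg)

section A

variable {V : Type} [Fintype V] [DecidableEq V]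

theorem D_mem (hT : S_TPB) : (1 - r2 : (V → ℝ) → ℝ) ∈ TP V :=
  sub_mem (one_mem _) (hT.mem (fun _ => 1)).2.2.2.2.1

theorem pd_D (hT : S_TPB) (x : V) (θ : V → ℝ) :
    pd x (1 - r2 : (V → ℝ) → ℝ) θ = -pd x r2 θ := by
  have h := (hT.hasd r2 (hT.mem (fun _ => 1)).2.2.2.2.1 x θ).const_sub 1
  exact h.deriv

theorem gr_D (hT : S_TPB) (θ : V → ℝ) : gr (1 - r2 : (V → ℝ) → ℝ) θ = gr r2 θ := by
  unfold gr
  refine Finset.sum_congr rfl fun x _ => ?_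
  rw [pd_D hT, neg_sq]

theorem gr_D_le (hT : S_TPB) [Nonempty V] (θ : V → ℝ) :
    gr (1 - r2 : (V → ℝ) → ℝ) θ ≤ 4 / (Fintype.card V : ℝ) := by
  obtain ⟨h0, h1, -, -, -, h5⟩ := hT.bounds (fun _ => 1) θ
  rw [gr_D hT]
  refine h5.trans ?_
  have h6 : 0 ≤ 4 / (Fintype.card V : ℝ) := by positivity
  exact mul_le_of_le_one_right h6 (by linarith)

theorem gr_mul (hT : S_TPB) (R : (V → ℝ) → ℝ) (hR : R ∈ TP V) (e : ℝ) (he : 0 < e)
    (θ : V → ℝ) : gr ((1 - r2) * R) θ ≤ (1 + e) * (1 - r2 θ) ^ 2 * gr R θ +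
      (1 + 1 / e) * R θ ^ 2 * gr (1 - r2) θ := by
  have hx : ∀ x : V, pd x ((1 - r2) * R) θ ^ 2 ≤ (1 + e) * (1 - r2 θ) ^ 2 * pd x R θ ^ 2 +
      (1 + 1 / e) * R θ ^ 2 * pd x (1 - r2) θ ^ 2 := by
    intro x
    have h1 : (1 - r2 : (V → ℝ) → ℝ) θ = 1 - r2 θ := rfl
    rw [hT.pdmul _ _ (D_mem hT) hR, h1, add_comm]
    refine le_trans (young _ _ e he) (le_of_eq ?_)
    ring
  unfold gr
  refine le_trans (Finset.sum_le_sum fun x _ => hx x) (le_of_eq ?_)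
  rw [Finset.sum_add_distrib, ← Finset.mul_sum, ← Finset.mul_sum]

theorem D_sq (hT : S_TPB) [Nonempty V] (θ : V → ℝ) :
    0 ≤ (1 - r2 θ) ^ 2 ∧ (1 - r2 θ) ^ 2 ≤ 1 := by
  obtain ⟨h0, h1, -⟩ := hT.bounds (fun _ => 1) θ
  exact ⟨sq_nonneg _, by nlinarith⟩

theorem P4 (hT : S_TPB) [Nonempty V] (M : ℕ) (θ : V → ℝ) :
    0 ≤ (1 + my θ) ^ (2 * M) ∧ (1 + my θ) ^ (2 * M) ≤ 4 ^ M := by
  obtain ⟨hb0, hb1⟩ := my_bd hT θ
  refine ⟨pow_nonneg hb0 _, ?_⟩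
  rw [pow_mul]
  apply pow_le_pow_left₀ (sq_nonneg _)
  nlinarith

theorem gr_nonneg (R : (V → ℝ) → ℝ) (θ : V → ℝ) : 0 ≤ gr R θ := by
  unfold gr
  exact Finset.sum_nonneg fun x _ => sq_nonneg _

omit [DecidableEq V] in
theorem PP (M : ℕ) (θ : V → ℝ) : ((1 + my) ^ M : (V → ℝ) → ℝ) θ ^ 2 =
    (1 + my θ) ^ (2 * M) := by
  rw [Pi.pow_apply, ← pow_mul, mul_comm M 2]
  rfl

/-- pointwise bound for the first function -/
theorem pt1 (hT : S_TPB) [Nonempty V] (M : ℕ) (e : ℝ) (he : 0 < e) (θ : V → ℝ) :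
    gr ((1 - r2) * (1 + my) ^ M) θ ≤ ((1 + e) * ((M : ℝ) ^ 2 * 4 ^ M) +
      (1 + 1 / e) * (4 ^ M * 4)) / (Fintype.card V : ℝ) := by
  have hn : (0 : ℝ) < (Fintype.card V : ℝ) := by exact_mod_cast Fintype.card_pos
  have hP : ((1 + my) ^ M : (V → ℝ) → ℝ) ∈ TP V :=
    pow_mem (add_mem (one_mem _) (hT.mem (fun _ => 1)).2.2.2.1) M
  refine (gr_mul hT _ hP e he θ).trans ?_
  rw [PP, add_div]
  have he1 : 0 ≤ 1 + 1 / e := by positivity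
  have h1 := grP_le hT M θ
  have h2 := D_sq hT θ
  have h3 := P4 hT M θ
  have h4 := gr_D_le hT θ
  have h5 : (1 + e) * (1 - r2 θ) ^ 2 * gr ((1 + my) ^ M) θ ≤
      (1 + e) * 1 * ((M : ℝ) ^ 2 * 4 ^ M / (Fintype.card V : ℝ)) :=
    mul_le_mul (mul_le_mul_of_nonneg_left h2.2 (by linarith)) h1 (gr_nonneg _ _) (by positivity)
  have h6 : (1 + 1 / e) * (1 + my θ) ^ (2 * M) * gr (1 - r2) θ ≤
      (1 + 1 / e) * 4 ^ M * (4 / (Fintype.card V : ℝ)) :=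
    mul_le_mul (mul_le_mul_of_nonneg_left h3.2 he1) h4 (gr_nonneg _ _) (by positivity)
  have e1 : (1 + e) * 1 * ((M : ℝ) ^ 2 * 4 ^ M / (Fintype.card V : ℝ)) =
      (1 + e) * ((M : ℝ) ^ 2 * 4 ^ M) / (Fintype.card V : ℝ) := by ring
  have e2 : (1 + 1 / e) * 4 ^ M * (4 / (Fintype.card V : ℝ)) =
      (1 + 1 / e) * (4 ^ M * 4) / (Fintype.card V : ℝ) := by ring
  rw [e1] at h5
  rw [e2] at h6
  exact add_le_add h5 h6

/-- pointwise bound for the second function -/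
theorem pt2 (hT : S_TPB) [Nonempty V] (M : ℕ) (f : V → ℝ) (e : ℝ) (he : 0 < e) (θ : V → ℝ) :
    gr ((1 - r2) * (1 + my) ^ M * Tf f) θ ≤
      (1 + e) ^ 3 * (∑ x, f x ^ 2) * ((1 + my θ) ^ (2 * M) * (1 - r2 θ) ^ 2) +
      ((1 + e) * ((1 + e) * (1 + 1 / e) * 4 ^ M + (1 + 1 / e) * ((M : ℝ) ^ 2 * 4 ^ M)) +
        (1 + 1 / e) * (4 ^ M * 4)) * (Nf f θ / (Fintype.card V : ℝ)) := by
  have hn : (0 : ℝ) < (Fintype.card V : ℝ) := by exact_mod_cast Fintype.card_pos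
  have hP : ((1 + my) ^ M : (V → ℝ) → ℝ) ∈ TP V :=
    pow_mem (add_mem (one_mem _) (hT.mem (fun _ => 1)).2.2.2.1) M
  have hPT : ((1 + my) ^ M * Tf f : (V → ℝ) → ℝ) ∈ TP V :=
    mul_mem hP (hT.mem f).2.2.2.2.2.2.2
  rw [mul_assoc]
  refine (gr_mul hT _ hPT e he θ).trans ?_
  have he1 : 0 ≤ 1 + 1 / e := by positivity
  have hN : 0 ≤ Nf f θ := by unfold Nf; positivity
  have h1 := grQ_le hT M f e he θ
  have h2 := D_sq hT θ
  have h3 := P4 hT M θ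
  have h4 := gr_D_le hT θ
  have h5 : ((1 + my) ^ M * Tf f : (V → ℝ) → ℝ) θ ^ 2 ≤ 4 ^ M * Nf f θ := by
    show (((1 + my) ^ M : (V → ℝ) → ℝ) θ * Tf f θ) ^ 2 ≤ 4 ^ M * Nf f θ
    rw [mul_pow, PP]
    exact mul_le_mul h3.2 (T_le hT f θ) (sq_nonneg _) (by positivity)
  set C' : ℝ := (1 + e) * (1 + 1 / e) * 4 ^ M + (1 + 1 / e) * ((M : ℝ) ^ 2 * 4 ^ M) with hC'
  have hC0 : 0 ≤ C' := by rw [hC']; positivity
  have h6 : (1 + e) * (1 - r2 θ) ^ 2 * gr ((1 + my) ^ M * Tf f) θ ≤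
      (1 + e) * (1 - r2 θ) ^ 2 * ((1 + e) ^ 2 * (∑ x, f x ^ 2) * (1 + my θ) ^ (2 * M) +
        C' * (Nf f θ / (Fintype.card V : ℝ))) :=
    mul_le_mul_of_nonneg_left h1 (mul_nonneg (by linarith) h2.1)
  have h7 : (1 - r2 θ) ^ 2 * ((1 + e) * (C' * (Nf f θ / (Fintype.card V : ℝ)))) ≤
      1 * ((1 + e) * (C' * (Nf f θ / (Fintype.card V : ℝ)))) :=
    mul_le_mul_of_nonneg_right h2.2 (by positivity)
  have h8 : (1 + 1 / e) * ((1 + my) ^ M * Tf f : (V → ℝ) → ℝ) θ ^ 2 * gr (1 - r2) θ ≤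
      (1 + 1 / e) * (4 ^ M * Nf f θ) * (4 / (Fintype.card V : ℝ)) :=
    mul_le_mul (mul_le_mul_of_nonneg_left h5 he1) h4 (gr_nonneg _ _) (by positivity)
  have e1 : (1 + e) * (1 - r2 θ) ^ 2 * ((1 + e) ^ 2 * (∑ x, f x ^ 2) * (1 + my θ) ^ (2 * M) +
        C' * (Nf f θ / (Fintype.card V : ℝ))) =
      (1 + e) ^ 3 * (∑ x, f x ^ 2) * ((1 + my θ) ^ (2 * M) * (1 - r2 θ) ^ 2) +
        (1 - r2 θ) ^ 2 * ((1 + e) * (C' * (Nf f θ / (Fintype.card V : ℝ)))) := by ring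
  have e2 : (1 + 1 / e) * (4 ^ M * Nf f θ) * (4 / (Fintype.card V : ℝ)) =
      (1 + 1 / e) * (4 ^ M * 4) * (Nf f θ / (Fintype.card V : ℝ)) := by ring
  have e3 : ((1 + e) * C' + (1 + 1 / e) * (4 ^ M * 4)) * (Nf f θ / (Fintype.card V : ℝ)) =
      1 * ((1 + e) * (C' * (Nf f θ / (Fintype.card V : ℝ)))) +
        (1 + 1 / e) * (4 ^ M * 4) * (Nf f θ / (Fintype.card V : ℝ)) := by ring
  rw [e1] at h6
  rw [e2] at h8
  rw [e3]
  linarith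

end A

theorem task4a (hT : S_TPB) : Pool.Agent.H993.CF.T_GRT := by
  intro M e he
  have he1 : 0 ≤ 1 + 1 / e := by positivity
  obtain ⟨C1, hC1⟩ : ∃ C1 : ℝ, C1 = (1 + e) * ((M : ℝ) ^ 2 * 4 ^ M) +
      (1 + 1 / e) * (4 ^ M * 4) := ⟨_, rfl⟩
  obtain ⟨C2, hC2⟩ : ∃ C2 : ℝ, C2 = (1 + e) * ((1 + e) * (1 + 1 / e) * 4 ^ M +
      (1 + 1 / e) * ((M : ℝ) ^ 2 * 4 ^ M)) + (1 + 1 / e) * (4 ^ M * 4) := ⟨_, rfl⟩
  have h10 : 0 ≤ C1 := by rw [hC1]; positivity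
  have h20 : 0 ≤ C2 := by rw [hC2]; positivity
  refine ⟨C1 + C2, by linarith, ?_⟩
  intro d L _ U l μ f hU hl hE hf
  have := hE.prob
  have hn : (0 : ℝ) < (Fintype.card (Fin d → ZMod L) : ℝ) := by exact_mod_cast Fintype.card_pos
  obtain ⟨hX, hY, hmx, hmy, hr2, hNf, hLf, hTf⟩ := hT.mem f
  have hP : ((1 + my) ^ M : ((Fin d → ZMod L) → ℝ) → ℝ) ∈ TP (Fin d → ZMod L) :=
    pow_mem (add_mem (one_mem _) hmy) M
  have hD : (1 - r2 : ((Fin d → ZMod L) → ℝ) → ℝ) ∈ TP (Fin d → ZMod L) := D_mem hT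
  constructor
  · have h1 : ∫ θ, gr ((1 - r2) * (1 + my) ^ M) θ ∂μ ≤
        ∫ _θ, C1 / (Fintype.card (Fin d → ZMod L) : ℝ) ∂μ := by
      refine integral_mono (intg hT hE _ (hT.grmem _ (mul_mem hD hP))) (integrable_const _)
        fun θ => ?_
      rw [hC1]
      exact pt1 hT M e he θ
    refine h1.trans ?_
    rw [integral_const, probReal_univ, one_smul]
    exact div_le_div_of_nonneg_right (by linarith) hn.le
  · have iN := intg hT hE _ hNf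
    have hW : (fun θ : (Fin d → ZMod L) → ℝ => (1 + my θ) ^ (2 * M) * (1 - r2 θ) ^ 2) ∈
        TP (Fin d → ZMod L) :=
      mul_mem (pow_mem (add_mem (one_mem _) hmy) (2 * M)) (pow_mem hD 2)
    have iW := intg hT hE _ hW
    have h1 : ∫ θ, gr ((1 - r2) * (1 + my) ^ M * Tf f) θ ∂μ ≤
        ∫ θ, ((1 + e) ^ 3 * (∑ x, f x ^ 2) * ((1 + my θ) ^ (2 * M) * (1 - r2 θ) ^ 2) +
          C2 * (Nf f θ / (Fintype.card (Fin d → ZMod L) : ℝ))) ∂μ := by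
      refine integral_mono (intg hT hE _ (hT.grmem _ (mul_mem (mul_mem hD hP) hTf)))
        ((iW.const_mul _).add ((iN.div_const _).const_mul _)) fun θ => ?_
      show gr ((1 - r2) * (1 + my) ^ M * Tf f) θ ≤
        (1 + e) ^ 3 * (∑ x, f x ^ 2) * ((1 + my θ) ^ (2 * M) * (1 - r2 θ) ^ 2) +
          C2 * (Nf f θ / (Fintype.card (Fin d → ZMod L) : ℝ))
      rw [hC2]
      exact pt2 hT M f e he θ
    rw [integral_add (iW.const_mul _) ((iN.div_const _).const_mul _), integral_const_mul,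
      integral_const_mul, integral_div] at h1
    refine h1.trans (add_le_add le_rfl ?_)
    have h2 := hE.irb l f hl hf
    have h3 : Real.sqrt U / Real.sqrt l * ∑ x, f x ^ 2 =
        (∑ x, f x ^ 2) * Real.sqrt U / Real.sqrt l := by ring
    rw [h3] at h2
    have h4 : 0 ≤ (∑ x, f x ^ 2) * Real.sqrt U / Real.sqrt l := by positivity
    calc C2 * ((∫ θ, Nf f θ ∂μ) / (Fintype.card (Fin d → ZMod L) : ℝ)) ≤
          C2 * (((∑ x, f x ^ 2) * Real.sqrt U / Real.sqrt l) /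
            (Fintype.card (Fin d → ZMod L) : ℝ)) :=
          mul_le_mul_of_nonneg_left (div_le_div_of_nonneg_right h2 hn.le) h20
      _ = C2 / (Fintype.card (Fin d → ZMod L) : ℝ) *
            ((∑ x, f x ^ 2) * Real.sqrt U / Real.sqrt l) := by ring
      _ ≤ _ := mul_le_mul_of_nonneg_right
          (div_le_div_of_nonneg_right (by linarith) hn.le) h4

end Pool.Agent.H993.CF.T4a
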