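import Pool.Agent.H993.CF.Stm
import Pool.Graph.R_pool_sql_team_seeded_63374d34.N482.QL_LONG
import Pool.Graph.R_pool_sql_team_seeded_63374d34.N691.QL_TRANS

/-!
# Project CF, task 5: the weighted longitudinal bound
-/

set_option autoImplicit false
set_option maxHeartbeats 4000000

namespace Pool.Agent.H993.CF.T5

open MeasureTheory Filter Topology
open Pool.Agent.N657.QR Pool.Agent.N657.QL Pool.Agent.H993.CF
open Pool.Agent.N482.QLLONG (integ mx_bd P_bd P_mem Nf_nn Lf_le)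

theorem task5 (hT : S_TPB) (hQ : Pool.Agent.N657.QL.S_RATIO) (h2 : T_ROTA) (h3 : T_SQ)
    (h5 : T_GRL) : T_LONG := by
  intro M δ hδ
  rcases Nat.eq_zero_or_pos M with hM | hM
  · refine ⟨1, 0, one_pos, le_rfl, ?_⟩
    intro d L _ U l μ f hU hl hE hf ha
    have h0 : ∀ θ : (Fin d → ZMod L) → ℝ, cM M (r2 θ) * Lf f θ ^ 2 * (1 - r2 θ) ^ 2 = 0 := by
      intro θ
      rw [hM]
      simp [cM]
    simp only [h0, integral_zero, zero_mul]
    have h1 : 0 ≤ ∑ x, f x ^ 2 := Finset.sum_nonneg fun _ _ => sq_nonneg _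
    have h2 : 0 ≤ am 2 μ := integral_nonneg fun θ => sq_nonneg _
    positivity
  obtain ⟨hc, hb, -⟩ := hQ.2 M hM
  set A : ℝ := AM M 1 with hA
  have hA1 : 1 ≤ A := (hb 1 zero_le_one le_rfl).1
  set Q : ℝ := 4 ^ M with hQd
  have hQ0 : 0 < Q := by positivity
  set K : ℝ := (A + 1) / (2 * δ) with hK
  have hK0 : 0 < K := by positivity
  have hKδ : K * δ = (A + 1) / 2 := by rw [hK]; field_simp
  obtain ⟨C3, hC3, hSQ⟩ := h3 1
  obtain ⟨Cg, hCg, hG⟩ := h5 M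
  refine ⟨δ / (8 * Q * K), K / 2 * Cg * (Q * C3 + 1) + 1 / (4 * K), by positivity,
    by positivity, ?_⟩
  intro d L _ U l μ f hU hl hE hf ha
  have := hE.prob
  obtain ⟨m1, m2, m3, m4, m5, m6, m7, m8⟩ := hT.mem f
  set v : ℝ := (Fintype.card (Fin d → ZMod L) : ℝ) with hv
  have hv0 : 0 < v := by rw [hv]; exact_mod_cast Fintype.card_pos
  set σ : ℝ := ∑ x, f x ^ 2 with hσ
  have hσ0 : 0 ≤ σ := Finset.sum_nonneg fun _ _ => sq_nonneg _
  set E2 : ℝ := am 2 μ with hE2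
  have hE20 : 0 ≤ E2 := integral_nonneg fun θ => sq_nonneg _
  set E3 : ℝ := am 3 μ with hE3
  have hSQ' := hSQ d L U l μ f hU hl hE hf
  obtain ⟨hG1, hG2⟩ := hG d L U l μ f hU hl hE hf
  rw [show 2 * 1 = 2 from rfl] at hSQ'
  rw [← hE2] at hSQ'
  rw [← hE3] at hG2
  obtain ⟨ro1, -, ro3, -⟩ := h2 d L U μ hE M f
  set a : ℝ := Real.sqrt U with had
  set b : ℝ := Real.sqrt l with hbd
  have ha0 : 0 < a := Real.sqrt_pos.2 hU
  have hb0 : 0 < b := Real.sqrt_pos.2 hl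
  have haU : U = a ^ 2 := (Real.sq_sqrt hU.le).symm
  have hbl : l = b ^ 2 := (Real.sq_sqrt hl.le).symm
  rcases hσ0.eq_or_lt with hσz | hσp
  · -- f = 0
    have hf0 : ∀ x, f x = 0 := by
      intro x
      have h1 := (Finset.sum_eq_zero_iff_of_nonneg (fun x _ => sq_nonneg (f x))).1 hσz.symm x
        (Finset.mem_univ x)
      exact pow_eq_zero_iff (two_ne_zero) |>.1 h1
    have h0 : ∀ θ : (Fin d → ZMod L) → ℝ, cM M (r2 θ) * Lf f θ ^ 2 * (1 - r2 θ) ^ 2 = 0 := by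
      intro θ
      have : Lf f θ = 0 := by simp [Lf, Xf, Yf, hf0]
      rw [this]; ring
    simp only [h0, integral_zero]
    positivity
  set W : ℝ := ∫ θ, cM M (r2 θ) * Lf f θ ^ 2 * (1 - r2 θ) ^ 2 ∂μ with hW
  -- membership
  have hD : (1 - r2 : ((Fin d → ZMod L) → ℝ) → ℝ) ∈ TP (Fin d → ZMod L) :=
    sub_mem (one_mem _) m5
  have hD2 : (fun θ : (Fin d → ZMod L) → ℝ => (1 - r2 θ) ^ 2) ∈ TP (Fin d → ZMod L) :=
    pow_mem hD 2
  have hPM := P_mem (V := Fin d → ZMod L) hT M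
  have hP : ((1 - r2) * (1 + mx) ^ M : ((Fin d → ZMod L) → ℝ) → ℝ) ∈ TP (Fin d → ZMod L) :=
    mul_mem hD hPM
  have hPL : ((1 - r2) * (1 + mx) ^ M * Lf f : ((Fin d → ZMod L) → ℝ) → ℝ) ∈
      TP (Fin d → ZMod L) := mul_mem hP m7
  have hPe : ∀ θ : (Fin d → ZMod L) → ℝ,
      ((1 - r2) * (1 + mx) ^ M : ((Fin d → ZMod L) → ℝ) → ℝ) θ =
        (1 - r2 θ) * (1 + mx θ) ^ M := fun _ => rfl
  have hPLe : ∀ θ : (Fin d → ZMod L) → ℝ,
      ((1 - r2) * (1 + mx) ^ M * Lf f : ((Fin d → ZMod L) → ℝ) → ℝ) θ =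
        (1 - r2 θ) * (1 + mx θ) ^ M * Lf f θ := fun _ => rfl
  have hsq : ∀ θ : (Fin d → ZMod L) → ℝ, (1 + mx θ) ^ (2 * M) = ((1 + mx θ) ^ M) ^ 2 := fun θ => by
    rw [← pow_mul, mul_comm]
  -- the bounds
  have b0 : ∫ θ, ((1 - r2) * (1 + mx) ^ M : ((Fin d → ZMod L) → ℝ) → ℝ) θ ^ 2 ∂μ ≤ A * E2 := by
    have e1 : ∫ θ, ((1 - r2) * (1 + mx) ^ M : ((Fin d → ZMod L) → ℝ) → ℝ) θ ^ 2 ∂μ =
        ∫ θ, (1 + mx θ) ^ (2 * M) * (1 - r2 θ) ^ 2 ∂μ := by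
      refine integral_congr_ae (Eventually.of_forall fun θ => ?_)
      simp only [hPe, hsq]
      ring
    rw [e1, ro1]
    have h1 : ∫ θ, AM M (r2 θ) * (1 - r2 θ) ^ 2 ∂μ ≤ ∫ θ, A * (1 - r2 θ) ^ 2 ∂μ := by
      refine integral_mono_of_nonneg (Eventually.of_forall fun θ => ?_)
        ((integ hT hD2).const_mul A) (Eventually.of_forall fun θ => ?_)
      · obtain ⟨c1, c2, -⟩ := hT.bounds f θ
        exact mul_nonneg (zero_le_one.trans (hb _ c1 c2).1) (sq_nonneg _)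
      · obtain ⟨c1, c2, -⟩ := hT.bounds f θ
        exact mul_le_mul_of_nonneg_right (hb _ c1 c2).2.1 (sq_nonneg _)
    rw [integral_const_mul] at h1
    exact h1
  have hND : (fun θ : (Fin d → ZMod L) → ℝ => Nf f θ * (1 - r2 θ) ^ 2) ∈ TP (Fin d → ZMod L) :=
    mul_mem m6 hD2
  have b2 : ∫ θ, ((1 - r2) * (1 + mx) ^ M * Lf f : ((Fin d → ZMod L) → ℝ) → ℝ) θ ^ 2 ∂μ ≤
      Q * (C3 * (σ * a / b * E2 + σ * U / (v * l))) := by
    have h1 : ∫ θ, ((1 - r2) * (1 + mx) ^ M * Lf f : ((Fin d → ZMod L) → ℝ) → ℝ) θ ^ 2 ∂μ ≤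
        ∫ θ, Q * (Nf f θ * (1 - r2 θ) ^ 2) ∂μ := by
      refine integral_mono_of_nonneg (Eventually.of_forall fun θ => sq_nonneg _)
        ((integ hT hND).const_mul _) (Eventually.of_forall fun θ => ?_)
      simp only [hPLe]
      have h6 := P_bd hT M θ
      have h7 : ((1 + mx θ) ^ M) ^ 2 * Lf f θ ^ 2 ≤ Q * Nf f θ :=
        mul_le_mul h6 (Lf_le hT f θ) (sq_nonneg _) hQ0.le
      have h8 := mul_le_mul_of_nonneg_right h7 (sq_nonneg (1 - r2 θ))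
      calc ((1 - r2 θ) * (1 + mx θ) ^ M * Lf f θ) ^ 2
          = ((1 + mx θ) ^ M) ^ 2 * Lf f θ ^ 2 * (1 - r2 θ) ^ 2 := by ring
        _ ≤ Q * Nf f θ * (1 - r2 θ) ^ 2 := h8
        _ = _ := by ring
    rw [integral_const_mul] at h1
    exact h1.trans (mul_le_mul_of_nonneg_left hSQ' hQ0.le)
  -- parameters
  set s : ℝ := K * b / a with hs
  set T : ℝ := a / (K ^ 2 * Q * C3 * σ * b) with hTd
  have hs0 : 0 < s := by positivity
  have hT0 : 0 < T := by positivity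
  have ht2 : Real.sqrt T * Real.sqrt T = T := Real.mul_self_sqrt hT0.le
  have h1 := Pool.Agent.N691.QLT.key hT hE (Real.sqrt T) l (Real.sqrt T * s) f hf _ _ hP hPL
  have ro : ∫ θ, Xf f θ * (((1 - r2) * (1 + mx) ^ M : ((Fin d → ZMod L) → ℝ) → ℝ) θ *
      ((1 - r2) * (1 + mx) ^ M * Lf f : ((Fin d → ZMod L) → ℝ) → ℝ) θ) ∂μ = W := by
    rw [← ro3]
    refine integral_congr_ae (Eventually.of_forall fun θ => ?_)
    simp only [hPe, hPLe, hsq]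
    ring
  rw [ro] at h1
  have q1 : Real.sqrt T * l * (2 * (Real.sqrt T * s) * W) = T * (2 * s * b ^ 2 * W) := by
    rw [hbl]
    calc _ = (Real.sqrt T * Real.sqrt T) * (2 * s * b ^ 2 * W) := by ring
      _ = _ := by rw [ht2]
  have q2 : (Real.sqrt T * s) ^ 2 = T * s ^ 2 := by
    rw [mul_pow, pow_two (Real.sqrt T), ht2]
  have q3 : Real.sqrt T ^ 2 = T := by rw [pow_two, ht2]
  rw [q1, q2, q3] at h1
  have h4 : U * ((∫ θ, gr ((1 - r2) * (1 + mx) ^ M) θ ∂μ) +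
      T * s ^ 2 * ∫ θ, gr ((1 - r2) * (1 + mx) ^ M * Lf f) θ ∂μ) ≤
      a ^ 2 * (Cg / v + T * s ^ 2 * (8 * Q * σ * E3 + Cg / v * (σ * a / b))) := by
    rw [haU]
    apply mul_le_mul_of_nonneg_left _ (sq_nonneg _)
    exact add_le_add hG1 (mul_le_mul_of_nonneg_left hG2 (by positivity))
  have h6 : T * l / 2 * σ *
      ((∫ θ, ((1 - r2) * (1 + mx) ^ M : ((Fin d → ZMod L) → ℝ) → ℝ) θ ^ 2 ∂μ) +
        T * s ^ 2 * ∫ θ, ((1 - r2) * (1 + mx) ^ M * Lf f :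
          ((Fin d → ZMod L) → ℝ) → ℝ) θ ^ 2 ∂μ) ≤
      T * b ^ 2 / 2 * σ * (A * E2 +
        T * s ^ 2 * (Q * (C3 * (σ * a / b * E2 + σ * U / (v * l))))) := by
    rw [hbl] at b2 ⊢
    apply mul_le_mul_of_nonneg_left _ (by positivity)
    exact add_le_add b0 (mul_le_mul_of_nonneg_left b2 (by positivity))
  have h7 : T * s ^ 2 * (Q * (C3 * (σ * a / b * E2 + σ * U / (v * l)))) = E2 + a / (v * b) := by
    rw [hTd, hs, haU, hbl]
    field_simp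
  have h8 : a ^ 2 * (Cg / v) = T * (a * b * (Cg * K ^ 2 * Q * C3 * σ / v)) := by
    rw [hTd]
    field_simp
  have h9 : a ^ 2 * s ^ 2 = K ^ 2 * b ^ 2 := by
    rw [hs]
    field_simp
  rw [h7] at h6
  have h10 : a ^ 2 * (Cg / v + T * s ^ 2 * (8 * Q * σ * E3 + Cg / v * (σ * a / b))) =
      T * (a * b * (Cg * K ^ 2 * Q * C3 * σ / v)) +
      T * (K ^ 2 * b ^ 2) * (8 * Q * σ * E3 + Cg / v * (σ * a / b)) := by
    rw [← h8, ← h9]
    ring
  rw [h10] at h4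
  have h11 : T * (2 * s * b ^ 2 * W) ≤ T * (a * b * (Cg * K ^ 2 * Q * C3 * σ / v) +
      K ^ 2 * b ^ 2 * (8 * Q * σ * E3 + Cg / v * (σ * a / b)) +
      b ^ 2 / 2 * σ * (A * E2 + (E2 + a / (v * b)))) := by
    calc T * (2 * s * b ^ 2 * W) ≤ _ := h1
      _ ≤ _ := add_le_add h4 h6
      _ = _ := by ring
  have h12 := le_of_mul_le_mul_left h11 hT0
  have h13 : 8 * Q * K * E3 ≤ δ * E2 := by
    have := mul_le_mul_of_nonneg_left ha (show 0 ≤ 8 * Q * K by positivity)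
    calc 8 * Q * K * E3 ≤ 8 * Q * K * (δ / (8 * Q * K) * E2) := this
      _ = δ * E2 := by field_simp
  -- final comparison
  have h14 : 2 * s * b ^ 2 * W ≤ 2 * s * b ^ 2 * (δ * σ * a / b * E2 +
      (K / 2 * Cg * (Q * C3 + 1) + 1 / (4 * K)) * σ * U / (v * l)) := by
    refine h12.trans ?_
    have e1 : 2 * s * b ^ 2 * (δ * σ * a / b * E2 +
        (K / 2 * Cg * (Q * C3 + 1) + 1 / (4 * K)) * σ * U / (v * l)) =
        2 * (K * δ) * b ^ 2 * σ * E2 +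
          (K ^ 2 * Cg * (Q * C3 + 1) + 1 / 2) * a * b * σ / v := by
      rw [hs, haU, hbl]
      field_simp
      ring
    have e2 : a * b * (Cg * K ^ 2 * Q * C3 * σ / v) +
        K ^ 2 * b ^ 2 * (8 * Q * σ * E3 + Cg / v * (σ * a / b)) +
        b ^ 2 / 2 * σ * (A * E2 + (E2 + a / (v * b))) =
        K * b ^ 2 * σ * (8 * Q * K * E3) + b ^ 2 * σ * E2 * ((A + 1) / 2) +
          (K ^ 2 * Cg * (Q * C3 + 1) + 1 / 2) * a * b * σ / v := by
      field_simp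
      ring
    rw [e1, e2, ← hKδ]
    have h15 : K * b ^ 2 * σ * (8 * Q * K * E3) ≤ K * b ^ 2 * σ * (δ * E2) :=
      mul_le_mul_of_nonneg_left h13 (by positivity)
    have h16 : K * b ^ 2 * σ * (δ * E2) + b ^ 2 * σ * E2 * (K * δ) =
        2 * (K * δ) * b ^ 2 * σ * E2 := by ring
    linarith
  exact le_of_mul_le_mul_left h14 (by positivity)

end Pool.Agent.H993.CF.T5
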