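import Pool.Graph.R_pool_sql_team_seeded_63374d34.N482.QL_LONG
import Pool.Agent.H993.CF.Stm

/-!
# Project CF, task 5a: gradient bounds for the longitudinal trial function with the factor `1 - r2`
-/

set_option autoImplicit false
set_option maxHeartbeats 4000000

namespace Pool.Agent.H993.CF.T5a

open MeasureTheory Filter Topology
open Pool.Agent.N657.QR Pool.Agent.N657.QL
open Pool.Agent.N482.QLLONG
open Pool.Agent.H993.CF (am)

section gen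

variable {V : Type} [Fintype V] [DecidableEq V]

theorem r2_mem (hT : S_TPB) : (r2 : (V → ℝ) → ℝ) ∈ TP V := (hT.mem (0 : V → ℝ)).2.2.2.2.1

theorem D_mem (hT : S_TPB) : ((1 - r2) : (V → ℝ) → ℝ) ∈ TP V :=
  sub_mem (one_mem _) (r2_mem hT)

theorem pd_D (hT : S_TPB) (x : V) (θ : V → ℝ) : pd x (1 - r2) θ = -pd x r2 θ :=
  ((hT.hasd r2 (r2_mem hT) x θ).const_sub 1).deriv

theorem grD_bd (hT : S_TPB) {R : (V → ℝ) → ℝ} (hR : R ∈ TP V) (θ : V → ℝ) :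
    gr ((1 - r2) * R) θ ≤ 2 * ((1 - r2 θ) ^ 2 * gr R θ) + 2 * (R θ ^ 2 * gr r2 θ) := by
  unfold gr
  rw [Finset.mul_sum, Finset.mul_sum, Finset.mul_sum, Finset.mul_sum, ← Finset.sum_add_distrib]
  apply Finset.sum_le_sum
  intro x _
  rw [hT.pdmul _ _ (D_mem hT) hR, pd_D hT]
  have e : ((1 - r2 : (V → ℝ) → ℝ)) θ = 1 - r2 θ := rfl
  rw [e]
  nlinarith [sq_nonneg (pd x r2 θ * R θ + (1 - r2 θ) * pd x R θ)]

variable [Nonempty V]

theorem D_bd (hT : S_TPB) (θ : V → ℝ) : 0 ≤ 1 - r2 θ ∧ 1 - r2 θ ≤ 1 := by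
  obtain ⟨h0, h1, -⟩ := hT.bounds (0 : V → ℝ) θ
  constructor <;> linarith

theorem grr_bd (hT : S_TPB) (θ : V → ℝ) : gr r2 θ ≤ 4 / (Fintype.card V : ℝ) := by
  have hv : (0 : ℝ) < Fintype.card V := by exact_mod_cast Fintype.card_pos
  obtain ⟨-, -, -, -, -, h⟩ := hT.bounds (0 : V → ℝ) θ
  obtain ⟨h0, h1⟩ := D_bd hT θ
  refine h.trans ?_
  calc 4 / (Fintype.card V : ℝ) * (1 - r2 θ) ≤ 4 / (Fintype.card V : ℝ) * 1 :=
        mul_le_mul_of_nonneg_left h1 (by positivity)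
    _ = 4 / (Fintype.card V : ℝ) := mul_one _

omit [Nonempty V] in
theorem gr_nn (R : (V → ℝ) → ℝ) (θ : V → ℝ) : 0 ≤ gr R θ :=
  Finset.sum_nonneg fun _ _ => sq_nonneg _

theorem grDP_bd (hT : S_TPB) (M : ℕ) (θ : V → ℝ) :
    gr ((1 - r2) * (1 + mx) ^ M) θ ≤
      4 ^ M * (16 + 4 * (M : ℝ) ^ 2) / (Fintype.card V : ℝ) := by
  have hv : (0 : ℝ) < Fintype.card V := by exact_mod_cast Fintype.card_pos
  obtain ⟨h0, h1⟩ := D_bd hT θ
  refine (grD_bd hT (P_mem hT M) θ).trans ?_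
  have hD : (1 - r2 θ) ^ 2 ≤ 1 := pow_le_one₀ h0 h1
  have h2 : (1 - r2 θ) ^ 2 * gr ((1 + mx) ^ M) θ ≤
      1 * ((M : ℝ) ^ 2 * 4 ^ M / (Fintype.card V : ℝ)) :=
    mul_le_mul hD (grP_bd hT M θ) (gr_nn _ _) zero_le_one
  have h3 : ((1 + mx : (V → ℝ) → ℝ) ^ M) θ ^ 2 * gr r2 θ ≤ 4 ^ M * (4 / (Fintype.card V : ℝ)) :=
    mul_le_mul (P_bd hT M θ) (grr_bd hT θ) (gr_nn _ _) (by positivity)
  have e : 4 ^ M * (16 + 4 * (M : ℝ) ^ 2) / (Fintype.card V : ℝ) =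
      2 * (1 * ((M : ℝ) ^ 2 * 4 ^ M / (Fintype.card V : ℝ))) +
        2 * (4 ^ M * (4 / (Fintype.card V : ℝ))) +
        4 ^ M * (8 + 2 * (M : ℝ) ^ 2) / (Fintype.card V : ℝ) := by ring
  have h4 : 0 ≤ 4 ^ M * (8 + 2 * (M : ℝ) ^ 2) / (Fintype.card V : ℝ) := by positivity
  rw [e]
  linarith

theorem grDPL_bd (hT : S_TPB) (M : ℕ) (f : V → ℝ) (θ : V → ℝ) :
    gr ((1 - r2) * (1 + mx) ^ M * Lf f) θ ≤
      8 * 4 ^ M * (∑ x, f x ^ 2 * (qx x θ * (1 - r2 θ) ^ 2)) +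
      4 ^ M * (16 + 4 * (M : ℝ) ^ 2) / (Fintype.card V : ℝ) * Nf f θ := by
  have hv : (0 : ℝ) < Fintype.card V := by exact_mod_cast Fintype.card_pos
  obtain ⟨m1, m2, m3, m4, m5, m6, m7, m8⟩ := hT.mem f
  obtain ⟨h0, h1⟩ := D_bd hT θ
  have hN := Nf_nn f θ
  rw [mul_assoc]
  refine (grD_bd hT (mul_mem (P_mem hT M) m7) θ).trans ?_
  have hD : (1 - r2 θ) ^ 2 ≤ 1 := pow_le_one₀ h0 h1
  have hD0 : 0 ≤ (1 - r2 θ) ^ 2 := sq_nonneg _
  have hC : 0 ≤ 4 ^ M * (4 + 2 * (M : ℝ) ^ 2) / (Fintype.card V : ℝ) * Nf f θ := by positivity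
  have h2 : (1 - r2 θ) ^ 2 * gr ((1 + mx) ^ M * Lf f) θ ≤
      (1 - r2 θ) ^ 2 * (4 * 4 ^ M * (∑ x, f x ^ 2 * qx x θ)) +
        1 * (4 ^ M * (4 + 2 * (M : ℝ) ^ 2) / (Fintype.card V : ℝ) * Nf f θ) := by
    refine (mul_le_mul_of_nonneg_left (grPL_bd hT M f θ) hD0).trans ?_
    rw [mul_add]
    exact add_le_add le_rfl (mul_le_mul_of_nonneg_right hD hC)
  have e1 : (1 - r2 θ) ^ 2 * (4 * 4 ^ M * (∑ x, f x ^ 2 * qx x θ)) =
      4 * 4 ^ M * (∑ x, f x ^ 2 * (qx x θ * (1 - r2 θ) ^ 2)) := by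
    rw [Finset.mul_sum, Finset.mul_sum, Finset.mul_sum]
    refine Finset.sum_congr rfl fun x _ => ?_
    ring
  have h3 : ((1 + mx) ^ M * Lf f : (V → ℝ) → ℝ) θ ^ 2 * gr r2 θ ≤
      4 ^ M * Nf f θ * (4 / (Fintype.card V : ℝ)) := by
    refine mul_le_mul ?_ (grr_bd hT θ) (gr_nn _ _) (by positivity)
    have e : ((1 + mx) ^ M * Lf f : (V → ℝ) → ℝ) θ = (1 + mx θ) ^ M * Lf f θ := rfl
    rw [e, mul_pow]
    exact mul_le_mul (P_bd hT M θ) (Lf_le hT f θ) (sq_nonneg _) (by positivity)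
  rw [e1] at h2
  have e : 8 * 4 ^ M * (∑ x, f x ^ 2 * (qx x θ * (1 - r2 θ) ^ 2)) +
      4 ^ M * (16 + 4 * (M : ℝ) ^ 2) / (Fintype.card V : ℝ) * Nf f θ =
      2 * (4 * 4 ^ M * (∑ x, f x ^ 2 * (qx x θ * (1 - r2 θ) ^ 2)) +
        1 * (4 ^ M * (4 + 2 * (M : ℝ) ^ 2) / (Fintype.card V : ℝ) * Nf f θ)) +
      2 * (4 ^ M * Nf f θ * (4 / (Fintype.card V : ℝ))) := by ring
  rw [e]
  linarith

end gen

section torus

variable {d L : ℕ} [NeZero L]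

theorem shift_r2 (θ : (Fin d → ZMod L) → ℝ) (a : Fin d → ZMod L) :
    r2 (fun x => θ (x + a)) = r2 θ := by
  unfold r2
  rw [(shift_my θ a).1, (shift_my θ a).2]

theorem qxD_mem (hT : S_TPB) (x : Fin d → ZMod L) :
    (fun θ : (Fin d → ZMod L) → ℝ => qx x θ * (1 - r2 θ) ^ 2) ∈ TP (Fin d → ZMod L) :=
  mul_mem (qx_mem hT x) (pow_mem (D_mem hT) 2)

theorem qxD_int (hT : S_TPB) {U : ℝ} {μ : Measure ((Fin d → ZMod L) → ℝ)} (hE : Env U μ)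
    (x : Fin d → ZMod L) : ∫ θ, qx x θ * (1 - r2 θ) ^ 2 ∂μ ≤ am 3 μ := by
  have := hE.prob
  have h1 : ∀ a : Fin d → ZMod L, ∫ θ, qx a θ * (1 - r2 θ) ^ 2 ∂μ =
      ∫ θ, qx 0 θ * (1 - r2 θ) ^ 2 ∂μ := by
    intro a
    rw [← hE.trans _ (qxD_mem hT 0) a]
    refine integral_congr_ae (Eventually.of_forall fun θ => ?_)
    simp only [qx, (shift_my θ a).1, (shift_my θ a).2, zero_add, shift_r2]
  have hv : (0 : ℝ) < Fintype.card (Fin d → ZMod L) := by exact_mod_cast Fintype.card_pos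
  have h2 : ∫ θ, (∑ a, qx a θ * (1 - r2 θ) ^ 2) ∂μ =
      (Fintype.card (Fin d → ZMod L) : ℝ) * ∫ θ, qx 0 θ * (1 - r2 θ) ^ 2 ∂μ := by
    rw [integral_finsetSum _ fun a _ => integ hT (qxD_mem hT a)]
    simp only [h1]
    rw [Finset.sum_const, Finset.card_univ, nsmul_eq_mul]
  have hi : Integrable (fun θ : (Fin d → ZMod L) → ℝ => (1 - r2 θ) ^ 3) μ :=
    integ hT (pow_mem (D_mem hT) 3)
  have h3 : ∫ θ, (∑ a, qx a θ * (1 - r2 θ) ^ 2) ∂μ ≤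
      (Fintype.card (Fin d → ZMod L) : ℝ) * am 3 μ := by
    unfold am
    rw [← integral_const_mul]
    refine integral_mono_of_nonneg (Eventually.of_forall fun θ =>
      Finset.sum_nonneg fun a _ => mul_nonneg (sq_nonneg _) (sq_nonneg _)) (hi.const_mul _)
      (Eventually.of_forall fun θ => ?_)
    obtain ⟨b1, b2, -, -, b5, -⟩ := hT.bounds (0 : (Fin d → ZMod L) → ℝ) θ
    have e : ∑ a, qx a θ = ∑ a, (mx θ * Real.sin (θ a) - my θ * Real.cos (θ a)) ^ 2 :=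
      Finset.sum_congr rfl fun a _ => by unfold qx; ring
    simp only
    rw [← Finset.sum_mul, e]
    have h4 : (∑ a, (mx θ * Real.sin (θ a) - my θ * Real.cos (θ a)) ^ 2) ≤
        (Fintype.card (Fin d → ZMod L) : ℝ) * (1 - r2 θ) := by
      refine b5.trans ?_
      apply mul_le_mul_of_nonneg_left _ hv.le
      nlinarith
    calc _ ≤ (Fintype.card (Fin d → ZMod L) : ℝ) * (1 - r2 θ) * (1 - r2 θ) ^ 2 :=
          mul_le_mul_of_nonneg_right h4 (sq_nonneg _)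
      _ = _ := by ring
  rw [h1 x]
  have h4 := h2.symm.trans_le h3
  exact le_of_mul_le_mul_left h4 hv

theorem task5a (hT : S_TPB) : Pool.Agent.H993.CF.T_GRL := by
  intro M
  refine ⟨4 ^ M * (16 + 4 * (M : ℝ) ^ 2), by positivity, ?_⟩
  intro d L _ U l μ f hU hl hE hf
  have := hE.prob
  obtain ⟨m1, m2, m3, m4, m5, m6, m7, m8⟩ := hT.mem f
  have hv : (0 : ℝ) < (Fintype.card (Fin d → ZMod L) : ℝ) := by exact_mod_cast Fintype.card_pos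
  have hN : ∫ θ, Nf f θ ∂μ ≤ Real.sqrt U / Real.sqrt l * ∑ x, f x ^ 2 := hE.irb l f hl hf
  refine ⟨?_, ?_⟩
  · have h1 : ∫ θ, gr ((1 - r2) * (1 + mx) ^ M) θ ∂μ ≤
        ∫ _θ : (Fin d → ZMod L) → ℝ,
          4 ^ M * (16 + 4 * (M : ℝ) ^ 2) / (Fintype.card (Fin d → ZMod L) : ℝ) ∂μ :=
      integral_mono_of_nonneg (Eventually.of_forall fun θ => gr_nn _ _) (integrable_const _)
        (Eventually.of_forall fun θ => grDP_bd hT M θ)
    simpa using h1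
  · have hiq : ∀ x : Fin d → ZMod L,
        Integrable (fun θ => f x ^ 2 * (qx x θ * (1 - r2 θ) ^ 2)) μ := fun x =>
      (integ hT (qxD_mem hT x)).const_mul _
    have hiN : Integrable (fun θ => Nf f θ) μ := integ hT m6
    have hi1 : Integrable (fun θ => 8 * 4 ^ M * ∑ x, f x ^ 2 * (qx x θ * (1 - r2 θ) ^ 2)) μ :=
      (integrable_finsetSum _ fun x _ => hiq x).const_mul _
    have hi2 : Integrable (fun θ => 4 ^ M * (16 + 4 * (M : ℝ) ^ 2) /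
        (Fintype.card (Fin d → ZMod L) : ℝ) * Nf f θ) μ := hiN.const_mul _
    have h1 : ∫ θ, gr ((1 - r2) * (1 + mx) ^ M * Lf f) θ ∂μ ≤
        ∫ θ, (8 * 4 ^ M * (∑ x, f x ^ 2 * (qx x θ * (1 - r2 θ) ^ 2)) +
          4 ^ M * (16 + 4 * (M : ℝ) ^ 2) / (Fintype.card (Fin d → ZMod L) : ℝ) * Nf f θ) ∂μ :=
      integral_mono_of_nonneg (Eventually.of_forall fun θ => gr_nn _ _) (hi1.add hi2)
        (Eventually.of_forall fun θ => grDPL_bd hT M f θ)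
    rw [integral_add hi1 hi2, integral_const_mul, integral_const_mul,
      integral_finsetSum _ fun x _ => hiq x] at h1
    refine h1.trans (add_le_add ?_ ?_)
    · have e2 : 8 * 4 ^ M * (∑ x, f x ^ 2) * am 3 μ = 8 * 4 ^ M * ((∑ x, f x ^ 2) * am 3 μ) := by
        ring
      rw [e2]
      apply mul_le_mul_of_nonneg_left _ (by positivity)
      rw [Finset.sum_mul]
      refine Finset.sum_le_sum fun x _ => ?_
      rw [integral_const_mul]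
      exact mul_le_mul_of_nonneg_left (qxD_int hT hE x) (sq_nonneg _)
    · apply mul_le_mul_of_nonneg_left _ (by positivity)
      refine hN.trans (le_of_eq ?_)
      ring

end torus

end Pool.Agent.H993.CF.T5a
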