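import Pool.Agent.H993.CF.Main
import Pool.Agent.H993.CF.T2
import Pool.Agent.H993.CF.T3
import Pool.Agent.H993.CF.T4
import Pool.Agent.H993.CF.T4a
import Pool.Agent.H993.CF.T5
import Pool.Agent.H993.CF.T5a

/-!
# Project CF: the depletion operator in a real ground state
-/

namespace Pool.Agent.H993.CF

open MeasureTheory
open Pool.Agent.N657.QR Pool.Agent.N657.QL

theorem t3 : T_SQ := T3.task3 tpb
theorem t2 : T_ROTA := T2.task2 tpb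
theorem t4 : T_TRANS := T4.task4 tpb ratio t2 t3 (T4a.task4a tpb)
theorem t5 : T_LONG := T5.task5 tpb ratio t2 t3 (T5a.task5a tpb)

theorem alg10 {a1 a2 D e t ε : ℝ} (hD : 0 ≤ D) (ha1 : 0 ≤ a1) (he : 0 ≤ e)
    (h2 : a2 ≤ (1 + e) * a1 ^ 2) (ht0 : 0 ≤ t) (ht : t ≤ 1) (h : |a1 - D| ≤ t * D)
    (h3 : t + 4 * e ≤ ε) : a2 - 2 * D * a1 + D ^ 2 ≤ ε * D ^ 2 := by
  have h4 : a1 ≤ 2 * D := by
    have h5 := (abs_le.1 h).2
    have h6 : t * D ≤ 1 * D := mul_le_mul_of_nonneg_right ht hD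
    linarith
  have h5 : a1 ^ 2 ≤ 4 * D ^ 2 := by
    calc a1 ^ 2 ≤ (2 * D) ^ 2 := pow_le_pow_left₀ ha1 h4 2
      _ = _ := by ring
  have h6 : (a1 - D) ^ 2 ≤ t * D ^ 2 := by
    calc (a1 - D) ^ 2 = |a1 - D| ^ 2 := (sq_abs _).symm
      _ ≤ (t * D) ^ 2 := pow_le_pow_left₀ (abs_nonneg _) h 2
      _ = t * (t * D ^ 2) := by ring
      _ ≤ 1 * (t * D ^ 2) := mul_le_mul_of_nonneg_right ht (by positivity)
      _ = _ := one_mul _
  have h7 : e * a1 ^ 2 ≤ e * (4 * D ^ 2) := mul_le_mul_of_nonneg_left h5 he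
  have h8 : (t + 4 * e) * D ^ 2 ≤ ε * D ^ 2 := mul_le_mul_of_nonneg_right h3 (by positivity)
  calc a2 - 2 * D * a1 + D ^ 2 ≤ (1 + e) * a1 ^ 2 - 2 * D * a1 + D ^ 2 := by linarith
    _ = (a1 - D) ^ 2 + e * a1 ^ 2 := by ring
    _ ≤ t * D ^ 2 + e * (4 * D ^ 2) := add_le_add h6 h7
    _ = (t + 4 * e) * D ^ 2 := by ring
    _ ≤ _ := h8

theorem real_var (d : ℕ) (hd : 2 ≤ d) (ε : ℝ) (hε : 0 < ε) : ∃ U₀ : ℝ, 0 < U₀ ∧
    ∀ U : ℝ, 0 < U → U ≤ U₀ → ∃ L₀ : ℕ, ∀ (L : ℕ) [NeZero L], L₀ ≤ L → Even L →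
    ∀ (Φ : ((Fin d → ZMod L) → ℤ) → ℝ),
      IsG (U • (1 : Matrix (Fin d → ZMod L) (Fin d → ZMod L) ℝ)) (nnw 1) 0 0 Φ →
      Summable (fun n => (Φ n - N0 Φ n - IL d L * (Real.sqrt U / Real.sqrt 2) * Φ n) ^ 2) ∧
      ∑' n, (Φ n - N0 Φ n - IL d L * (Real.sqrt U / Real.sqrt 2) * Φ n) ^ 2 ≤
        ε * (IL d L * (Real.sqrt U / Real.sqrt 2)) ^ 2 := by
  have hd0 : (0:ℝ) < d := by
    have : 0 < d := by omega
    exact_mod_cast this
  obtain ⟨κ, hκ⟩ : ∃ κ : ℝ, κ = 1 / (2 * Real.sqrt (8 * d)) := ⟨_, rfl⟩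
  have hκ0 : 0 < κ := by
    have : 0 < Real.sqrt (8 * d) := Real.sqrt_pos.2 (by positivity)
    rw [hκ]; positivity
  have hs2' : 0 < Real.sqrt 2 := Real.sqrt_pos.2 two_pos
  obtain ⟨t, ht⟩ : ∃ t, t = min 1 (ε / 2) := ⟨_, rfl⟩
  have ht0 : 0 < t := by rw [ht]; exact lt_min one_pos (by positivity)
  have ht1 : t ≤ 1 := by rw [ht]; exact min_le_left _ _
  have ht2 : t ≤ ε / 2 := by rw [ht]; exact min_le_right _ _
  obtain ⟨ε₂, hε₂, U₁, hU₁, h1⟩ := var_mu t3 t4 t5 d hd (ε / 8) (by positivity)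
  obtain ⟨ε', hε'⟩ : ∃ ε', ε' = min ε₂ (t * κ / Real.sqrt 2) := ⟨_, rfl⟩
  have hε'0 : 0 < ε' := by rw [hε']; exact lt_min hε₂ (by positivity)
  have hε'1 : ε' ≤ ε₂ := by rw [hε']; exact min_le_left _ _
  have hε'2 : ε' ≤ t * κ / Real.sqrt 2 := by rw [hε']; exact min_le_right _ _
  obtain ⟨U₂, hU₂, h2⟩ := lall d hd ε' hε'0
  obtain ⟨U₃, hU₃, h3⟩ := up d hd ε' hε'0
  refine ⟨min U₁ (min U₂ U₃), lt_min hU₁ (lt_min hU₂ hU₃), ?_⟩
  intro U hU hUle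
  obtain ⟨L₁, hL₁⟩ := h1 U hU (hUle.trans (min_le_left _ _))
  obtain ⟨L₂, hL₂⟩ := h2 U hU (hUle.trans ((min_le_right _ _).trans (min_le_left _ _)))
  obtain ⟨L₃, hL₃⟩ := h3 U hU (hUle.trans ((min_le_right _ _).trans (min_le_right _ _)))
  refine ⟨max 2 (max L₁ (max L₂ L₃)), ?_⟩
  intro L _ hLL hev Φ hΦ
  have hL2 : 2 ≤ L := (le_max_left _ _).trans hLL
  have hLL1 : L₁ ≤ L := (le_max_left _ _).trans ((le_max_right _ _).trans hLL)
  have hLL2 : L₂ ≤ L := (le_max_left _ _).trans ((le_max_right _ _).trans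
    ((le_max_right _ _).trans hLL))
  have hLL3 : L₃ ≤ L := (le_max_right _ _).trans ((le_max_right _ _).trans
    ((le_max_right _ _).trans hLL))
  obtain ⟨μ, hE, hM⟩ := t_env d L U Φ hev hU hΦ
  have := hE.prob
  obtain ⟨s1, s2⟩ := N0_sq hΦ.1.1 hM
  obtain ⟨m1, m2, m3⟩ := N0_mean hΦ.1.1 hM
  have hsU : 0 < Real.sqrt U := Real.sqrt_pos.2 hU
  have ir : Integrable (fun θ : (Fin d → ZMod L) → ℝ => r2 θ) μ := by
    have h := (integrable_const (1 : ℝ)).sub (am_int (μ := μ) 1)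
    refine h.congr (ae_of_all _ fun θ => ?_)
    show 1 - (1 - r2 θ) ^ 1 = r2 θ
    ring
  have a1e : am 1 μ = 1 - ∫ θ, r2 θ ∂μ := by
    unfold am
    simp only [pow_one]
    rw [integral_sub (integrable_const _) ir, integral_const]
    simp
  have a2e : ∫ θ, r2 θ ^ 2 ∂μ = am 2 μ - 2 * am 1 μ + 1 := by
    have e1 : (fun θ : (Fin d → ZMod L) → ℝ => r2 θ ^ 2) =
        fun θ => (1 - r2 θ) ^ 2 - 2 * (1 - r2 θ) ^ 1 + 1 := by
      funext θ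
      ring
    have j1 : Integrable (fun θ : (Fin d → ZMod L) → ℝ =>
        (1 - r2 θ) ^ 2 - 2 * (1 - r2 θ) ^ 1) μ :=
      (am_int 2).sub ((am_int 1).const_mul _)
    rw [e1, integral_add j1 (integrable_const _),
      integral_sub (am_int 2) ((am_int 1).const_mul _), integral_const_mul, integral_const]
    simp [am]
  have hlow := hL₂ L hLL2 hev 0 0 Φ hΦ
  rw [← m3, m2, ← a1e] at hlow
  have hup := hL₃ L hLL3 μ hE
  have hup' : am 1 μ ≤ (IL d L / Real.sqrt 2 + ε') * Real.sqrt U := by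
    refine le_trans (le_of_eq ?_) hup
    unfold am a1
    simp only [pow_one]
  have hv := hL₁ L hLL1 μ hE (le_trans (mul_le_mul_of_nonneg_right (by linarith) hsU.le) hlow)
  have hILκ : κ ≤ IL d L := by rw [hκ]; exact IL_low hd hL2
  obtain ⟨D, hD⟩ : ∃ D, D = IL d L * (Real.sqrt U / Real.sqrt 2) := ⟨_, rfl⟩
  have hD0 : 0 ≤ D := by
    rw [hD]
    exact mul_nonneg (hκ0.le.trans hILκ) (by positivity)
  have hDt : ε' * Real.sqrt U ≤ t * D := by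
    calc ε' * Real.sqrt U ≤ t * κ / Real.sqrt 2 * Real.sqrt U :=
          mul_le_mul_of_nonneg_right hε'2 hsU.le
      _ = κ * (t * (Real.sqrt U / Real.sqrt 2)) := by ring
      _ ≤ IL d L * (t * (Real.sqrt U / Real.sqrt 2)) :=
          mul_le_mul_of_nonneg_right hILκ (by positivity)
      _ = t * D := by rw [hD]; ring
  have eD1 : (IL d L / Real.sqrt 2 - ε') * Real.sqrt U = D - ε' * Real.sqrt U := by
    rw [hD]; ring
  have eD2 : (IL d L / Real.sqrt 2 + ε') * Real.sqrt U = D + ε' * Real.sqrt U := by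
    rw [hD]; ring
  rw [eD1] at hlow
  rw [eD2] at hup'
  have habs : |am 1 μ - D| ≤ t * D := by
    rw [abs_le]
    constructor <;> linarith
  have hfin := alg10 (ε := ε) hD0 (am_nonneg (μ := μ) 1) (by positivity) hv ht0.le ht1 habs
    (by linarith)
  rw [← hD]
  have hnr : ∑' n, Φ n ^ 2 = 1 := hΦ.2.2.1
  have hex : ∀ n, (Φ n - N0 Φ n - D * Φ n) ^ 2 =
      N0 Φ n ^ 2 + (-(2 * (1 - D))) * (N0 Φ n * Φ n) + (1 - D) ^ 2 * Φ n ^ 2 := by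
    intro n
    ring
  have S1 : Summable fun n => (-(2 * (1 - D))) * (N0 Φ n * Φ n) := m1.mul_left _
  have S2 : Summable fun n => (1 - D) ^ 2 * Φ n ^ 2 := hΦ.1.1.mul_left _
  simp only [hex]
  refine ⟨(s1.add S1).add S2, ?_⟩
  rw [(s1.add S1).tsum_add S2, s1.tsum_add S1, tsum_mul_left, tsum_mul_left, hnr, s2, m2, a2e]
  have e3 : ∫ θ, r2 θ ∂μ = 1 - am 1 μ := by linarith
  rw [e3]
  refine le_trans (le_of_eq ?_) hfin
  ring

end Pool.Agent.H993.CF
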