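import Pool.Agent.H993.CF.Asm

/-!
# Project CF: the variance of the condensate fraction
-/

namespace Pool.Agent.H993.CF

open MeasureTheory
open Pool.Agent.N657.QR Pool.Agent.N657.QL

/-- Real inequality for the last step. -/
theorem alg9 {E1 E2 E3 I r ε₁ ε₂ e c₀ s C9 C1 L : ℝ} (hs : 0 < s) (hc₀ : 0 < c₀) (he : 0 < e)
    (hC9 : 0 ≤ C9) (hL : 0 < L) (hE1 : c₀ * s ≤ E1) (hcs1 : E1 ^ 2 ≤ E2)
    (hcs2 : E2 ^ 2 ≤ E1 * E3)
    (h3 : E3 ≤ (r + ε₁) * s * E2 * I + C9 * s ^ 2 * I / (4 * L))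
    (hlow : (I * r - ε₂) * s ≤ E1) (hI0 : 0 ≤ I) (hI1 : I ≤ C1) (hε₁0 : 0 ≤ ε₁)
    (hε₁ : ε₁ * C1 = e * c₀ / 4) (hε₂ : ε₂ = e * c₀ / 4)
    (hLL : C9 * C1 / (4 * L) ≤ e / 2 * c₀ ^ 3 * s) : E2 ≤ (1 + e) * E1 ^ 2 := by
  have hE10 : 0 < E1 := lt_of_lt_of_le (by positivity) hE1
  have hE20 : 0 < E2 := lt_of_lt_of_le (by positivity) hcs1
  have h4 : (r + ε₁) * s * I ≤ E1 * (1 + e / 2) := by
    have h5 : ε₁ * I ≤ e * c₀ / 4 := by
      rw [← hε₁]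
      exact mul_le_mul_of_nonneg_left hI1 hε₁0
    have h6 : ε₁ * I * s ≤ e * c₀ / 4 * s := mul_le_mul_of_nonneg_right h5 hs.le
    have h7 : e * (c₀ * s) ≤ e * E1 := mul_le_mul_of_nonneg_left hE1 he.le
    have h8 : (r + ε₁) * s * I = (I * r - ε₂) * s + ε₂ * s + ε₁ * I * s := by ring
    rw [h8, hε₂]
    rw [hε₂] at hlow
    nlinarith
  have h5 : C9 * s ^ 2 * I / (4 * L) ≤ e / 2 * E1 * E2 := by
    have h6 : C9 * s ^ 2 * I / (4 * L) ≤ s ^ 2 * (C9 * C1 / (4 * L)) := by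
      have : C9 * s ^ 2 * I / (4 * L) = s ^ 2 * (C9 * I / (4 * L)) := by ring
      rw [this]
      refine mul_le_mul_of_nonneg_left ?_ (by positivity)
      exact div_le_div_of_nonneg_right (mul_le_mul_of_nonneg_left hI1 hC9) (by positivity)
    have h7 : s ^ 2 * (C9 * C1 / (4 * L)) ≤ s ^ 2 * (e / 2 * c₀ ^ 3 * s) :=
      mul_le_mul_of_nonneg_left hLL (by positivity)
    have h8 : s ^ 2 * (e / 2 * c₀ ^ 3 * s) = e / 2 * (c₀ * s) ^ 3 := by ring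
    have h9 : (c₀ * s) ^ 3 ≤ E1 ^ 3 := pow_le_pow_left₀ (by positivity) hE1 3
    have h10 : E1 ^ 3 ≤ E1 * E2 := by
      have := mul_le_mul_of_nonneg_left hcs1 hE10.le
      nlinarith
    have h11 : e / 2 * (c₀ * s) ^ 3 ≤ e / 2 * (E1 * E2) :=
      mul_le_mul_of_nonneg_left (h9.trans h10) (by positivity)
    linarith
  have h6 : (r + ε₁) * s * E2 * I ≤ E1 * (1 + e / 2) * E2 := by
    have := mul_le_mul_of_nonneg_right h4 hE20.le
    linarith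
  have h7 : E3 ≤ (1 + e) * E1 * E2 := by
    have : E1 * (1 + e / 2) * E2 + e / 2 * E1 * E2 = (1 + e) * E1 * E2 := by ring
    linarith
  have h8 : E2 * E2 ≤ ((1 + e) * E1 ^ 2) * E2 := by
    have := mul_le_mul_of_nonneg_left h7 hE10.le
    nlinarith
  exact le_of_mul_le_mul_right h8 hE20

/-- Splitting of one mode. -/
theorem spl {P Q V s t l E U A B : ℝ} (h : P + Q = V) (hV : 0 < V) (ht : 0 < t) (hl : 0 < l) :
    A * s * E * (V * (1 / t)) + B * U * (1 / l) =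
      (A * (P * s / t) * E + B * (P * U / (V * l))) +
        (A * (Q * s / t) * E + B * (Q * U / (V * l))) := by
  have hV' := hV.ne'
  have ht' := ht.ne'
  have hl' := hl.ne'
  have e1 : (A * (P * s / t) * E + B * (P * U / (V * l))) +
        (A * (Q * s / t) * E + B * (Q * U / (V * l))) =
        A * s * E * ((P + Q) * (1 / t)) + B * U * ((P + Q) / V) * (1 / l) := by
    field_simp
  rw [e1, h, div_self hV', mul_one]

theorem alg_ab {B AM δ r : ℝ} (hB : 0 < B) (hδ0 : 0 < δ) (hδ1 : δ ≤ 1)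
    (hM : AM ≤ (1 + δ) * B) (hr0 : 0 ≤ r) (hr1 : r ≤ 1) :
    (1 + δ) * AM * r ≤ B * (r + 3 * δ) := by
  have e2 : (1 + δ) * AM ≤ (1 + δ) * ((1 + δ) * B) :=
    mul_le_mul_of_nonneg_left hM (by linarith)
  have e2' : (1 + δ) * AM * r ≤ (1 + δ) * ((1 + δ) * B) * r := mul_le_mul_of_nonneg_right e2 hr0
  have e3 : (1 + δ) ^ 2 ≤ 1 + 3 * δ := by nlinarith
  have e4 : (1 + δ) ^ 2 * r ≤ (1 + 3 * δ) * r := mul_le_mul_of_nonneg_right e3 hr0
  have e4' : (1 + 3 * δ) * r ≤ r + 3 * δ := by nlinarith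
  have e5 : B * ((1 + δ) ^ 2 * r) ≤ B * (r + 3 * δ) :=
    mul_le_mul_of_nonneg_left (e4.trans e4') hB.le
  calc (1 + δ) * AM * r ≤ (1 + δ) * ((1 + δ) * B) * r := e2'
    _ = B * ((1 + δ) ^ 2 * r) := by ring
    _ ≤ _ := e5

theorem alg7 {I0 TT LL N1 N2 B A' δ r ε₁ D η C3 C5 X CT CL C9 W Z E2 E4 : ℝ}
    (g0 : B * I0 ≤ LL + TT + D * (η / 2 * N1 + 1 / (2 * η) * N2))
    (g1 : TT ≤ A' * W * E2 + CT * Z)
    (g2 : LL ≤ δ * B * W * E2 + CL * Z)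
    (g3 : N1 ≤ C3 * (W * E2 + Z))
    (g4 : N2 ≤ C5 * (W * E4 + Z))
    (hW : 0 ≤ W) (hE2 : 0 ≤ E2) (hD : 0 ≤ D) (hη : 0 < η) (hB : 0 < B) (hC5 : 0 ≤ C5)
    (hE4 : E4 ≤ X * E2)
    (hAB : A' ≤ B * (r + 3 * δ))
    (h1 : 4 * δ * B ≤ ε₁ * B / 3)
    (h2 : D * (η / 2 * C3) ≤ ε₁ * B / 3)
    (h3 : D * (1 / (2 * η) * (C5 * X)) ≤ ε₁ * B / 3)
    (hBC : B * C9 = CT + CL + D * (η / 2 * C3 + 1 / (2 * η) * C5)) :
    I0 ≤ (r + ε₁) * W * E2 + C9 * Z := by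
  have hWE : 0 ≤ W * E2 := mul_nonneg hW hE2
  have F1 : A' * W * E2 ≤ B * (r + 3 * δ) * (W * E2) := by
    calc A' * W * E2 = A' * (W * E2) := by ring
      _ ≤ _ := mul_le_mul_of_nonneg_right hAB hWE
  have q2 : D * (1 / (2 * η) * (C5 * (W * E4))) ≤ ε₁ * B / 3 * (W * E2) := by
    have e0 : W * E4 ≤ W * (X * E2) := mul_le_mul_of_nonneg_left hE4 hW
    calc D * (1 / (2 * η) * (C5 * (W * E4))) ≤ D * (1 / (2 * η) * (C5 * (W * (X * E2)))) :=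
          mul_le_mul_of_nonneg_left (mul_le_mul_of_nonneg_left
            (mul_le_mul_of_nonneg_left e0 hC5) (by positivity)) hD
      _ = D * (1 / (2 * η) * (C5 * X)) * (W * E2) := by ring
      _ ≤ _ := mul_le_mul_of_nonneg_right h3 hWE
  have q1 : D * (η / 2 * C3) * (W * E2) ≤ ε₁ * B / 3 * (W * E2) :=
    mul_le_mul_of_nonneg_right h2 hWE
  have q0 : 4 * δ * B * (W * E2) ≤ ε₁ * B / 3 * (W * E2) :=
    mul_le_mul_of_nonneg_right h1 hWE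
  have p1 : D * (η / 2 * N1 + 1 / (2 * η) * N2) ≤
      D * (η / 2 * (C3 * (W * E2 + Z)) + 1 / (2 * η) * (C5 * (W * E4 + Z))) := by
    refine mul_le_mul_of_nonneg_left ?_ hD
    exact add_le_add (mul_le_mul_of_nonneg_left g3 (by positivity))
      (mul_le_mul_of_nonneg_left g4 (by positivity))
  have p2 : D * (η / 2 * (C3 * (W * E2 + Z)) + 1 / (2 * η) * (C5 * (W * E4 + Z))) =
      D * (η / 2 * C3) * (W * E2) + D * (1 / (2 * η) * (C5 * (W * E4))) +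
        D * (η / 2 * C3 + 1 / (2 * η) * C5) * Z := by ring
  rw [p2] at p1
  have fin : B * I0 ≤ B * ((r + ε₁) * W * E2 + C9 * Z) := by
    have e1 : B * ((r + ε₁) * W * E2 + C9 * Z) =
        B * r * (W * E2) + 3 * (ε₁ * B / 3 * (W * E2)) + (B * C9) * Z := by ring
    rw [e1, hBC]
    have e2 : B * (r + 3 * δ) * (W * E2) + δ * B * W * E2 =
        B * r * (W * E2) + 4 * δ * B * (W * E2) := by ring
    have e3 : (CT + CL + D * (η / 2 * C3 + 1 / (2 * η) * C5)) * Z =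
        CT * Z + CL * Z + D * (η / 2 * C3 + 1 / (2 * η) * C5) * Z := by ring
    rw [e3]
    linarith
  exact le_of_mul_le_mul_left fin hB

theorem alg_E2 {D C3 η ε₁ B : ℝ} (hD : 0 ≤ D) (hC3 : 0 < C3) (hε : 0 < ε₁) (hB : 0 < B)
    (hη : η = 2 * ε₁ * B / (3 * (D * C3 + 1))) : D * (η / 2 * C3) ≤ ε₁ * B / 3 := by
  have hp : 0 < D * C3 + 1 := by positivity
  have e1 : D * (η / 2 * C3) = ε₁ * B / 3 * (D * C3 / (D * C3 + 1)) := by
    rw [hη]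
    field_simp
  rw [e1]
  refine mul_le_of_le_one_right (by positivity) ?_
  rw [div_le_one hp]
  linarith

theorem alg_E3 {D C3 C5 C1 η ε₁ B s : ℝ} (hD : 0 ≤ D) (hC3 : 0 < C3) (hC5 : 0 < C5)
    (hC1 : 0 < C1) (hε : 0 < ε₁) (hB : 0 < B) (hη : 0 < η)
    (hs : s ≤ ε₁ * B * η / (3 * (D * C5 * C3 * C1 + 1))) :
    D * (1 / (2 * η) * (C5 * (2 * C3 * C1 * s))) ≤ ε₁ * B / 3 := by
  have hp : 0 < D * C5 * C3 * C1 + 1 := by positivity
  calc D * (1 / (2 * η) * (C5 * (2 * C3 * C1 * s))) =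
      D * C5 * C3 * C1 / η * s := by field_simp
    _ ≤ D * C5 * C3 * C1 / η * (ε₁ * B * η / (3 * (D * C5 * C3 * C1 + 1))) :=
      mul_le_mul_of_nonneg_left hs (by positivity)
    _ = ε₁ * B / 3 * (D * C5 * C3 * C1 / (D * C5 * C3 * C1 + 1)) := by field_simp
    _ ≤ ε₁ * B / 3 * 1 := by
      refine mul_le_mul_of_nonneg_left ?_ (by positivity)
      rw [div_le_one hp]
      linarith
    _ = _ := mul_one _

theorem alg_cr {C3 C1 U s I E2 c₀ L : ℝ} (hC3 : 0 < C3) (hC1 : 0 < C1) (hL : 0 < L)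
    (hU : 0 < U) (hs : 0 < s)
    (hc₀ : 0 < c₀) (hE20 : 0 < E2) (hI : I ≤ C1) (hE2U : c₀ ^ 2 * U ≤ E2)
    (hLa : 1 / (4 * c₀ ^ 2 * s) ≤ L) :
    C3 * s * E2 * I + C3 * U * I / (4 * L) ≤ 2 * C3 * C1 * s * E2 := by
  have h2 : C3 * U * I / (4 * L) ≤ C3 * C1 * s * E2 := by
    have h3 : U / (4 * L) ≤ s * E2 := by
      rw [div_le_iff₀ (by positivity)] at hLa
      rw [div_le_iff₀ (by positivity)]
      have h4 : c₀ ^ 2 * U ≤ c₀ ^ 2 * (s * E2 * (4 * L)) := by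
        calc c₀ ^ 2 * U ≤ E2 := hE2U
          _ ≤ E2 * (L * (4 * c₀ ^ 2 * s)) := le_mul_of_one_le_right hE20.le hLa
          _ = _ := by ring
      exact le_of_mul_le_mul_left h4 (by positivity)
    calc C3 * U * I / (4 * L) = C3 * I * (U / (4 * L)) := by ring
      _ ≤ C3 * C1 * (U / (4 * L)) := by
        refine mul_le_mul_of_nonneg_right ?_ (by positivity)
        exact mul_le_mul_of_nonneg_left hI hC3.le
      _ ≤ C3 * C1 * (s * E2) := mul_le_mul_of_nonneg_left h3 (by positivity)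
      _ = _ := by ring
  have h4 : C3 * s * E2 * I ≤ C3 * C1 * s * E2 := by
    calc C3 * s * E2 * I ≤ C3 * s * E2 * C1 := mul_le_mul_of_nonneg_left hI (by positivity)
      _ = _ := by ring
  calc C3 * s * E2 * I + C3 * U * I / (4 * L) ≤ C3 * C1 * s * E2 + C3 * C1 * s * E2 :=
      add_le_add h4 h2
    _ = _ := by ring

/-- The variance of the condensate fraction with respect to the distribution of the angles. -/
theorem var_mu (h3 : T_SQ) (h4 : T_TRANS) (h5 : T_LONG) (d : ℕ) (hd : 2 ≤ d) (e : ℝ)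
    (he : 0 < e) : ∃ ε₂ : ℝ, 0 < ε₂ ∧ ∃ U₀ : ℝ, 0 < U₀ ∧
    ∀ U : ℝ, 0 < U → U ≤ U₀ → ∃ L₀ : ℕ, ∀ (L : ℕ) [NeZero L], L₀ ≤ L →
      ∀ μ : Measure ((Fin d → ZMod L) → ℝ), Env U μ →
      (IL d L / Real.sqrt 2 - ε₂) * Real.sqrt U ≤ am 1 μ →
      am 2 μ ≤ (1 + e) * am 1 μ ^ 2 := by
  obtain ⟨C1, hC1, hlat⟩ := lat d hd
  have hd0 : (0:ℝ) < d := by
    have : 0 < d := by omega
    exact_mod_cast this
  obtain ⟨κ, hκ⟩ : ∃ κ : ℝ, κ = 1 / (2 * Real.sqrt (8 * d)) := ⟨_, rfl⟩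
  have hκ0 : 0 < κ := by
    have : 0 < Real.sqrt (8 * d) := Real.sqrt_pos.2 (by positivity)
    rw [hκ]; positivity
  obtain ⟨c₀, hc₀⟩ : ∃ c₀ : ℝ, c₀ = κ / 4 := ⟨_, rfl⟩
  have hc₀0 : 0 < c₀ := by rw [hc₀]; positivity
  obtain ⟨e', he'⟩ : ∃ e', e' = min 1 e := ⟨_, rfl⟩
  have he'0 : 0 < e' := by rw [he']; exact lt_min one_pos he
  have he'1 : e' ≤ 1 := by rw [he']; exact min_le_left _ _
  have he'2 : e' ≤ e := by rw [he']; exact min_le_right _ _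
  obtain ⟨ε₁, hε₁⟩ : ∃ ε₁, ε₁ = e' * c₀ / (4 * C1) := ⟨_, rfl⟩
  have hε₁0 : 0 < ε₁ := by rw [hε₁]; positivity
  obtain ⟨δ, hδ⟩ : ∃ δ, δ = min 1 (ε₁ / 12) := ⟨_, rfl⟩
  have hδ0 : 0 < δ := by rw [hδ]; exact lt_min one_pos (by positivity)
  have hδ1 : δ ≤ 1 := by rw [hδ]; exact min_le_left _ _
  have hδ2 : δ ≤ ε₁ / 12 := by rw [hδ]; exact min_le_right _ _
  obtain ⟨M, hM, hMr⟩ := ratio.1 δ hδ0
  obtain ⟨hB, hbd, D, hD, hDb⟩ := ratio.2 M hM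
  obtain ⟨CT, hCT, ht⟩ := h4 M δ hδ0
  obtain ⟨a0, CL, ha0, hCL, hl⟩ := h5 M (δ * cM M 1) (mul_pos hδ0 hB)
  obtain ⟨C3, hC3, hq3⟩ := h3 1
  obtain ⟨C5, hC5, hq5⟩ := h3 2
  obtain ⟨B, hBe⟩ : ∃ B, B = cM M 1 := ⟨_, rfl⟩
  rw [← hBe] at hB hMr hDb hl
  obtain ⟨η, hη⟩ : ∃ η, η = 2 * ε₁ * B / (3 * (D * C3 + 1)) := ⟨_, rfl⟩
  have hη0 : 0 < η := by rw [hη]; positivity
  obtain ⟨C9, hC9⟩ : ∃ C9, C9 = (CT + CL + D * (η / 2 * C3 + 1 / (2 * η) * C5)) / B := ⟨_, rfl⟩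
  have hC90 : 0 ≤ C9 := by rw [hC9]; positivity
  obtain ⟨s₀, hs₀⟩ : ∃ s₀, s₀ = min (a0 / (2 * C3 * C1))
    (ε₁ * B * η / (3 * (D * C5 * C3 * C1 + 1))) := ⟨_, rfl⟩
  have hs₀0 : 0 < s₀ := by rw [hs₀]; exact lt_min (by positivity) (by positivity)
  refine ⟨e' * c₀ / 4, by positivity, s₀ ^ 2, by positivity, ?_⟩
  intro U hU hU0
  have hsU : 0 < Real.sqrt U := Real.sqrt_pos.2 hU
  have hUU : Real.sqrt U ^ 2 = U := Real.sq_sqrt hU.le
  have hss : Real.sqrt U ≤ s₀ := by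
    rw [← Real.sqrt_sq hs₀0.le]
    exact Real.sqrt_le_sqrt hU0
  have hs1 : 2 * C3 * C1 * Real.sqrt U ≤ a0 := by
    have h : Real.sqrt U ≤ a0 / (2 * C3 * C1) := hss.trans (by rw [hs₀]; exact min_le_left _ _)
    rw [le_div_iff₀ (by positivity)] at h
    calc 2 * C3 * C1 * Real.sqrt U = Real.sqrt U * (2 * C3 * C1) := by ring
      _ ≤ a0 := h
  have hs2 : Real.sqrt U ≤ ε₁ * B * η / (3 * (D * C5 * C3 * C1 + 1)) :=
    hss.trans (by rw [hs₀]; exact min_le_right _ _)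
  refine ⟨max 2 (max (⌈1 / (4 * c₀ ^ 2 * Real.sqrt U)⌉₊)
    (⌈C9 * C1 / (2 * e' * c₀ ^ 3 * Real.sqrt U)⌉₊)), ?_⟩
  intro L _ hLL μ hE hlow
  have := hE.prob
  have hL2 : 2 ≤ L := (le_max_left _ _).trans hLL
  have hL0 : 0 < (L : ℝ) := by exact_mod_cast Nat.pos_of_ne_zero (NeZero.ne L)
  have hLa : 1 / (4 * c₀ ^ 2 * Real.sqrt U) ≤ L := by
    refine (Nat.le_ceil _).trans ?_
    exact_mod_cast (le_max_left _ _).trans ((le_max_right _ _).trans hLL)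
  have hLb : C9 * C1 / (2 * e' * c₀ ^ 3 * Real.sqrt U) ≤ L := by
    refine (Nat.le_ceil _).trans ?_
    exact_mod_cast (le_max_right _ _).trans ((le_max_right _ _).trans hLL)
  have hILC : IL d L ≤ C1 := Pool.Agent.H993.DM.IL_le (hlat L)
  have hIL0 : 0 ≤ IL d L := Pool.Agent.H993.DM.IL_nonneg
  have hILκ : κ ≤ IL d L := by rw [hκ]; exact IL_low hd hL2
  have hs2' : 0 < Real.sqrt 2 := Real.sqrt_pos.2 two_pos
  have hr2 : Real.sqrt 2 ≤ 2 := by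
    rw [Real.sqrt_le_left (by norm_num)]
    norm_num
  have hr1 : 1 ≤ Real.sqrt 2 := by rw [Real.one_le_sqrt]; norm_num
  obtain ⟨r, hr⟩ : ∃ r, r = 1 / Real.sqrt 2 := ⟨_, rfl⟩
  have hr0 : 1 / 2 ≤ r := by
    rw [hr]
    exact one_div_le_one_div_of_le hs2' hr2
  have hr1' : r ≤ 1 := by
    rw [hr, div_le_one hs2']
    exact hr1
  have hlow' : (IL d L * r - e' * c₀ / 4) * Real.sqrt U ≤ am 1 μ := by
    refine le_trans (le_of_eq ?_) hlow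
    rw [hr]
    ring
  have hE1 : c₀ * Real.sqrt U ≤ am 1 μ := by
    refine le_trans ?_ hlow'
    refine mul_le_mul_of_nonneg_right ?_ hsU.le
    have h1 : κ / 2 ≤ IL d L * r := by nlinarith
    have h2 : e' * c₀ / 4 ≤ c₀ := by nlinarith
    rw [hc₀] at h2 ⊢
    linarith
  have hE10 : 0 < am 1 μ := lt_of_lt_of_le (by positivity) hE1
  have hcs1 : am 1 μ ^ 2 ≤ am 2 μ := am_cs1
  have hcs2 : am 2 μ ^ 2 ≤ am 1 μ * am 3 μ := am_cs2 hE10
  have hE2U : c₀ ^ 2 * U ≤ am 2 μ := by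
    refine le_trans ?_ hcs1
    have h1 := pow_le_pow_left₀ (by positivity) hE1 2
    rw [mul_pow, hUU] at h1
    exact h1
  have hE20 : 0 < am 2 μ := lt_of_lt_of_le (by positivity) hE2U
  have hnorm : ∀ k : Fin d → ZMod L, (∑ x, ck k x ^ 2) + ∑ x, sk k x ^ 2 =
      (Fintype.card (Fin d → ZMod L) : ℝ) := fun k => pla.norm d L k
  obtain ⟨V, hV⟩ : ∃ V : ℝ, V = (Fintype.card (Fin d → ZMod L) : ℝ) := ⟨_, rfl⟩
  have hV0 : 0 < V := by rw [hV]; exact Pool.Agent.H993.DM.card_pos'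
  have hlk : ∀ k : Fin d → ZMod L, k ≠ 0 → 0 < lam k := fun k hk =>
    Pool.Agent.H993.DM.lam_pos' hk
  -- the crude bound
  have crude : am 3 μ ≤ 2 * C3 * C1 * Real.sqrt U * am 2 μ := by
    have h1 := sum_lem (d := d) (L := L) hd (μ := μ) (a := C3 * Real.sqrt U * am 2 μ)
      (b := C3 * U) (by positivity) (by
        intro k hk
        have hl0 := hlk k hk
        have hsl : 0 < Real.sqrt (lam k) := Real.sqrt_pos.2 hl0
        have g1 := hq3 d L U (lam k) μ (ck k) hU hl0 hE fun x => (pla.lapc d L k x).1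
        have g2 := hq3 d L U (lam k) μ (sk k) hU hl0 hE fun x => (pla.lapc d L k x).2
        have g3 := hnorm k
        rw [← hV] at g1 g2 g3 ⊢
        rw [spl g3 hV0 hsl hl0]
        refine (add_le_add g1 g2).trans (le_of_eq ?_)
        have e21 : am (2 * 1) μ = am 2 μ := rfl
        rw [e21]
        ring)
    exact h1.trans (alg_cr hC3 hC1 hL0 hU hsU hc₀0 hE20 hILC hE2U hLa)
  have hE3 : am 3 μ ≤ a0 * am 2 μ :=
    crude.trans (mul_le_mul_of_nonneg_right hs1 hE20.le)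
  have hE4 : am 4 μ ≤ 2 * C3 * C1 * Real.sqrt U * am 2 μ := (am_anti 3).trans crude
  have hE1' : 4 * δ * B ≤ ε₁ * B / 3 := by
    calc 4 * δ * B ≤ 4 * (ε₁ / 12) * B := by gcongr
      _ = _ := by ring
  have hBC : B * C9 = CT + CL + D * (η / 2 * C3 + 1 / (2 * η) * C5) := by
    rw [hC9]
    exact mul_div_cancel₀ _ hB.ne'
  -- one mode
  have mode : ∀ (l : ℝ) (f : (Fin d → ZMod L) → ℝ), 0 < l → (∀ x, lap f x = l * f x) →
      ∫ θ, Nf f θ * (1 - r2 θ) ^ 2 ∂μ ≤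
        (r + ε₁) * ((∑ x, f x ^ 2) * Real.sqrt U / Real.sqrt l) * am 2 μ +
          C9 * ((∑ x, f x ^ 2) * U / (V * l)) := by
    intro l f hl0 hf
    have g0 := core_w hE f hD hη0 hDb
    have g1 := ht d L U l μ f hU hl0 hE hf
    have g2 := hl d L U l μ f hU hl0 hE hf hE3
    have g3 := hq3 d L U l μ f hU hl0 hE hf
    have g4 := hq5 d L U l μ f hU hl0 hE hf
    have hsl : 0 < Real.sqrt l := Real.sqrt_pos.2 hl0
    obtain ⟨W, hW⟩ : ∃ W, W = (∑ x, f x ^ 2) * Real.sqrt U / Real.sqrt l := ⟨_, rfl⟩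
    obtain ⟨Z, hZ⟩ : ∃ Z, Z = (∑ x, f x ^ 2) * U / (V * l) := ⟨_, rfl⟩
    have hσ0 : 0 ≤ ∑ x, f x ^ 2 := Finset.sum_nonneg fun x _ => sq_nonneg _
    have hW0 : 0 ≤ W := by rw [hW]; positivity
    have hZ0 : 0 ≤ Z := by rw [hZ]; positivity
    rw [← hV] at g1 g2 g3 g4
    rw [← hW, ← hZ] at g3 g4 ⊢
    have k1 : (1 + δ) * AM M 1 * (∑ x, f x ^ 2) * Real.sqrt U / (Real.sqrt 2 * Real.sqrt l) *
        am 2 μ + CT * (∑ x, f x ^ 2) * U / (V * l) =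
        (1 + δ) * AM M 1 * r * W * am 2 μ + CT * Z := by
      rw [hr, hW, hZ]
      field_simp
    have k2 : δ * B * (∑ x, f x ^ 2) * Real.sqrt U / Real.sqrt l * am 2 μ +
        CL * (∑ x, f x ^ 2) * U / (V * l) = δ * B * W * am 2 μ + CL * Z := by
      rw [hW, hZ]
      ring
    rw [k1] at g1
    rw [k2] at g2
    have e21 : am (2 * 1) μ = am 2 μ := rfl
    have e22 : am (2 * 2) μ = am 4 μ := rfl
    rw [e21] at g3
    rw [e22] at g4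
    exact alg7 g0 g1 g2 g3 g4 hW0 hE20.le hD hη0 hB hC5.le hE4
      (alg_ab hB hδ0 hδ1 hMr (by linarith) hr1') hE1' (alg_E2 hD hC3 hε₁0 hB hη)
      (alg_E3 hD hC3 hC5 hC1 hε₁0 hB hη0 hs2) hBC
  -- the sharp bound
  have sharp : am 3 μ ≤ (r + ε₁) * Real.sqrt U * am 2 μ * IL d L +
      C9 * Real.sqrt U ^ 2 * IL d L / (4 * L) := by
    have h1 := sum_lem (d := d) (L := L) hd (μ := μ) (a := (r + ε₁) * Real.sqrt U * am 2 μ)
      (b := C9 * U) (by positivity) (by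
        intro k hk
        have hl0 := hlk k hk
        have hsl : 0 < Real.sqrt (lam k) := Real.sqrt_pos.2 hl0
        have g1 := mode (lam k) (ck k) hl0 fun x => (pla.lapc d L k x).1
        have g2 := mode (lam k) (sk k) hl0 fun x => (pla.lapc d L k x).2
        have g3 := hnorm k
        rw [← hV] at g3 ⊢
        rw [spl g3 hV0 hsl hl0]
        exact add_le_add g1 g2)
    rw [hUU]
    exact h1
  have hfin := alg9 (E1 := am 1 μ) (E2 := am 2 μ) (E3 := am 3 μ) (I := IL d L) (r := r)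
    (ε₁ := ε₁) (ε₂ := e' * c₀ / 4) (e := e') (c₀ := c₀) (s := Real.sqrt U) (C9 := C9)
    (C1 := C1) (L := (L : ℝ)) hsU hc₀0 he'0 hC90 hL0 hE1 hcs1 hcs2 sharp hlow' hIL0 hILC hε₁0.le
    (by rw [hε₁]; field_simp) rfl (by
      rw [div_le_iff₀ (by positivity)] at hLb
      rw [div_le_iff₀ (by positivity)]
      linarith)
  refine hfin.trans ?_
  refine mul_le_mul_of_nonneg_right ?_ (sq_nonneg _)
  linarith

end Pool.Agent.H993.CF
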